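import Pool.Agent.H30.CH.Push

/-!
# Blocks

A block is a stationary pair of states `x`, `y` of a group valued variable over a context. Blocks
can be composed and reversed. `h` is the entropy of `y` given `x`, and `t` is the dependence of `x`
on the displacement `y - x`.
-/

set_option autoImplicit false
set_option linter.unusedSectionVars false
set_option linter.unusedVariables false

namespace Pool.CH30

open Finset
open Pool.Agent.H49.Ent Pool.Agent.H32.Dense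

section indep

variable {Ω₁ Ω₂ : Type} [Fintype Ω₁] [Fintype Ω₂] {S T U : Type} {p₁ : Ω₁ → ℝ} {p₂ : Ω₂ → ℝ}
  {Z₁ : Ω₁ → T} {Z₂ : Ω₂ → T}

/-- In a glued law the second variable is independent of the first given the common value. -/
theorem CH_snd_fst (h₁ : ∀ ω, 0 ≤ p₁ ω) (h₂ : ∀ ω, 0 ≤ p₂ ω)
    (hZ : ∀ z, law p₁ Z₁ z = law p₂ Z₂ z) {X : Ω₁ → S} (hX : Det p₁ X Z₁) (Y : Ω₂ → U) :
    CH (glue p₁ p₂ Z₁ Z₂) (fun w => Y w.2) (fun w => X w.1) = CH p₂ Y Z₂ := by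
  have h0 : ∀ w, 0 ≤ glue p₁ p₂ Z₁ Z₂ w := glue_nonneg h₁ h₂
  have e1 := H_glue_pair h₁ h₂ hZ (X := X) (Y := fun ω => (Y ω, Z₂ ω)) hX
    (fun _ _ _ _ h => (Prod.ext_iff.mp h).2)
  have e2 : H (glue p₁ p₂ Z₁ Z₂) (fun w => (Y w.2, X w.1)) =
      H (glue p₁ p₂ Z₁ Z₂) (fun w => (X w.1, (Y w.2, Z₂ w.2))) := by
    refine H_congr h0 ?_ ?_
    · intro w w' _ _ h
      simp only [Prod.mk.injEq] at h ⊢
      tauto
    · intro w w' hw hw' h
      simp only [Prod.mk.injEq] at h ⊢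
      obtain ⟨a, c⟩ := h
      refine ⟨c, a, ?_⟩
      rw [← glue_eq hw h₁ h₂, ← glue_eq hw' h₁ h₂]
      exact hX _ _ ((glue_pos_iff h₁ h₂ w).mp hw).1 ((glue_pos_iff h₁ h₂ w').mp hw').1 c
  have e3 : H (glue p₁ p₂ Z₁ Z₂) (fun w => X w.1) = H p₁ X := H_glue_fst h₁ hZ X
  have e4 : H p₁ Z₁ = H p₂ Z₂ := H_law hZ
  unfold CH
  rw [e2, e1, e3, e4]
  ring

theorem CH_fst_snd (h₁ : ∀ ω, 0 ≤ p₁ ω) (h₂ : ∀ ω, 0 ≤ p₂ ω)
    (hZ : ∀ z, law p₁ Z₁ z = law p₂ Z₂ z) (X : Ω₁ → S) {Y : Ω₂ → U} (hY : Det p₂ Y Z₂) :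
    CH (glue p₁ p₂ Z₁ Z₂) (fun w => X w.1) (fun w => Y w.2) = CH p₁ X Z₁ := by
  have h0 : ∀ w, 0 ≤ glue p₁ p₂ Z₁ Z₂ w := glue_nonneg h₁ h₂
  have e1 := H_glue_pair h₁ h₂ hZ (X := fun ω => (X ω, Z₁ ω)) (Y := Y)
    (fun _ _ _ _ h => (Prod.ext_iff.mp h).2) hY
  have e2 : H (glue p₁ p₂ Z₁ Z₂) (fun w => (X w.1, Y w.2)) =
      H (glue p₁ p₂ Z₁ Z₂) (fun w => ((X w.1, Z₁ w.1), Y w.2)) := by
    refine H_congr h0 ?_ ?_
    · intro w w' _ _ h
      simp only [Prod.mk.injEq] at h ⊢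
      tauto
    · intro w w' hw hw' h
      simp only [Prod.mk.injEq] at h ⊢
      obtain ⟨a, c⟩ := h
      refine ⟨⟨a, ?_⟩, c⟩
      rw [glue_eq hw h₁ h₂, glue_eq hw' h₁ h₂]
      exact hY _ _ ((glue_pos_iff h₁ h₂ w).mp hw).2.1 ((glue_pos_iff h₁ h₂ w').mp hw').2.1 c
  have e3 : H (glue p₁ p₂ Z₁ Z₂) (fun w => Y w.2) = H p₂ Y := H_glue_snd h₂ hZ Y
  unfold CH
  rw [e2, e1, e3]
  ring

theorem CH_glue_fst (h₁ : ∀ ω, 0 ≤ p₁ ω) (hZ : ∀ z, law p₁ Z₁ z = law p₂ Z₂ z)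
    (X : Ω₁ → S) (Y : Ω₁ → U) :
    CH (glue p₁ p₂ Z₁ Z₂) (fun w => X w.1) (fun w => Y w.1) = CH p₁ X Y :=
  (push_fst h₁ hZ).CH X Y

theorem CH_glue_snd (h₂ : ∀ ω, 0 ≤ p₂ ω) (hZ : ∀ z, law p₁ Z₁ z = law p₂ Z₂ z)
    (X : Ω₂ → S) (Y : Ω₂ → U) :
    CH (glue p₁ p₂ Z₁ Z₂) (fun w => X w.2) (fun w => Y w.2) = CH p₂ X Y :=
  (push_snd h₂ hZ).CH X Y

/-- Submodularity over a context. -/
theorem sub3 {Ω : Type} [Fintype Ω] {A C B : Type} {p : Ω → ℝ} (hp : ∀ ω, 0 ≤ p ω)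
    (a : Ω → A) (c : Ω → C) (b : Ω → B) :
    H p (fun ω => (a ω, (c ω, b ω))) + H p b ≤
      H p (fun ω => (a ω, b ω)) + H p (fun ω => (c ω, b ω)) := by
  have := CH_mono_cond hp (X := a) (W' := fun ω => (c ω, b ω)) (W := b)
    (fun _ _ _ _ h => (Prod.ext_iff.mp h).2)
  unfold CH at this
  linarith

end indep

variable {Ω₀ : Type} [Fintype Ω₀] {G B A : Type} [AddCommGroup G]

/-- A stationary pair of states over the context. -/
structure Blk (p₀ : Ω₀ → ℝ) (b₀ : Ω₀ → B) (n₀ : Ω₀ → G) where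
  Ω : Type
  [inst : Fintype Ω]
  p : Ω → ℝ
  nn : ∀ ω, 0 ≤ p ω
  b : Ω → B
  x : Ω → G
  y : Ω → G
  lx : ∀ z, law p (fun ω => (x ω, b ω)) z = law p₀ (fun ω => (n₀ ω, b₀ ω)) z
  ly : ∀ z, law p (fun ω => (y ω, b ω)) z = law p₀ (fun ω => (n₀ ω, b₀ ω)) z

attribute [instance] Blk.inst

variable {p₀ : Ω₀ → ℝ} {b₀ : Ω₀ → B} {n₀ : Ω₀ → G}

namespace Blk

/-- The entropy of the end given the start. -/
noncomputable def h (X : Blk p₀ b₀ n₀) : ℝ := CH X.p X.y (fun ω => (X.x ω, X.b ω))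

/-- The dependence of the start on the displacement. -/
noncomputable def t (X : Blk p₀ b₀ n₀) : ℝ :=
  CH p₀ n₀ b₀ - CH X.p X.x (fun ω => (X.y ω - X.x ω, X.b ω))

theorem Hx (X : Blk p₀ b₀ n₀) :
    H X.p (fun ω => (X.x ω, X.b ω)) = H p₀ (fun ω => (n₀ ω, b₀ ω)) := H_law X.lx

theorem Hy (X : Blk p₀ b₀ n₀) :
    H X.p (fun ω => (X.y ω, X.b ω)) = H p₀ (fun ω => (n₀ ω, b₀ ω)) := H_law X.ly

theorem lb (X : Blk p₀ b₀ n₀) (z : B) : law X.p X.b z = law p₀ b₀ z := by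
  classical
  have e : ∀ {Ω : Type} [Fintype Ω] (p : Ω → ℝ) (x : Ω → G) (b : Ω → B) (F : Finset G),
      univ.image x ⊆ F → law p b z = ∑ g ∈ F, law p (fun ω => (x ω, b ω)) (g, z) := by
    intro Ω _ p x b F hF
    unfold law
    rw [Finset.sum_comm]
    refine Finset.sum_congr rfl fun ω _ => ?_
    rw [Finset.sum_eq_single (x ω)]
    · simp
    · intro g _ hg
      rw [if_neg]
      intro hh
      exact hg (Prod.ext_iff.mp hh).1.symm
    · intro hh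
      exact absurd (hF (Finset.mem_image_of_mem _ (Finset.mem_univ _))) hh
  rw [e X.p X.x X.b (univ.image X.x ∪ univ.image n₀) subset_union_left,
    e p₀ n₀ b₀ (univ.image X.x ∪ univ.image n₀) subset_union_right]
  exact Finset.sum_congr rfl fun g _ => X.lx (g, z)

theorem Hb (X : Blk p₀ b₀ n₀) : H X.p X.b = H p₀ b₀ := H_law X.lb

/-- `h` is symmetric. -/
theorem h_symm (X : Blk p₀ b₀ n₀) : X.h = CH X.p X.x (fun ω => (X.y ω, X.b ω)) := by
  unfold h CH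
  rw [X.Hx, X.Hy]
  congr 1
  refine H_congr X.nn ?_ ?_ <;>
  · intro w w' _ _ h
    simp only [Prod.mk.injEq] at h ⊢
    tauto

theorem h_nonneg (X : Blk p₀ b₀ n₀) : 0 ≤ X.h := CH_nonneg X.nn _ _

theorem h_le (X : Blk p₀ b₀ n₀) : X.h ≤ CH p₀ n₀ b₀ := by
  have h1 : X.h ≤ CH X.p X.y X.b :=
    CH_mono_cond X.nn (fun _ _ _ _ h => (Prod.ext_iff.mp h).2)
  have h2 : CH X.p X.y X.b = CH p₀ n₀ b₀ := by
    unfold CH
    rw [X.Hy, X.Hb]
  linarith

/-- The displacement. -/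
theorem disp (X : Blk p₀ b₀ n₀) : CH X.p (fun ω => X.y ω - X.x ω) X.b = X.h + X.t := by
  unfold h t CH
  rw [X.Hx, X.Hb]
  have : H X.p (fun ω => (X.x ω, (X.y ω - X.x ω, X.b ω))) =
      H X.p (fun ω => (X.y ω, (X.x ω, X.b ω))) := by
    refine H_congr X.nn ?_ ?_
    · intro w w' _ _ h
      simp only [Prod.mk.injEq] at h ⊢
      obtain ⟨a, c, d⟩ := h
      rw [a, c]; exact ⟨rfl, rfl, d⟩
    · intro w w' _ _ h
      simp only [Prod.mk.injEq] at h ⊢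
      obtain ⟨a, c, d⟩ := h
      refine ⟨?_, a, d⟩
      rw [a] at c
      exact sub_left_injective c
  rw [this]
  ring

/-- Reversal. -/
def rev (X : Blk p₀ b₀ n₀) : Blk p₀ b₀ n₀ where
  Ω := X.Ω
  p := X.p
  nn := X.nn
  b := X.b
  x := X.y
  y := X.x
  lx := X.ly
  ly := X.lx

theorem rev_h (X : Blk p₀ b₀ n₀) : X.rev.h = X.h := X.h_symm.symm

theorem rev_t (X : Blk p₀ b₀ n₀) : X.rev.t = X.t := by
  unfold t
  congr 1
  show CH X.p X.y (fun ω => (X.x ω - X.y ω, X.b ω)) = _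
  refine CH_congr X.nn ?_ ?_ ?_ ?_
  · intro w w' _ _ h
    simp only [Prod.mk.injEq] at h
    obtain ⟨a, c, d⟩ := h
    rw [a] at c
    exact sub_left_injective c
  · intro w w' _ _ h
    simp only [Prod.mk.injEq] at h
    obtain ⟨a, c, d⟩ := h
    rw [a] at c
    exact sub_left_injective c
  · intro w w' _ _ h
    simp only [Prod.mk.injEq] at h ⊢
    refine ⟨?_, h.2⟩
    rw [← neg_sub, h.1, neg_sub]
  · intro w w' _ _ h
    simp only [Prod.mk.injEq] at h ⊢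
    refine ⟨?_, h.2⟩
    rw [← neg_sub, h.1, neg_sub]

theorem law_yx (X Y : Blk p₀ b₀ n₀) (z : G × B) :
    law X.p (fun ω => (X.y ω, X.b ω)) z = law Y.p (fun ω => (Y.x ω, Y.b ω)) z := by
  rw [X.ly, Y.lx]

/-- Composition. -/
noncomputable def comp (X Y : Blk p₀ b₀ n₀) : Blk p₀ b₀ n₀ where
  Ω := X.Ω × Y.Ω
  p := glue X.p Y.p (fun ω => (X.y ω, X.b ω)) (fun ω => (Y.x ω, Y.b ω))
  nn := glue_nonneg X.nn Y.nn
  b := fun w => X.b w.1
  x := fun w => X.x w.1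
  y := fun w => Y.y w.2
  lx := fun z => by
    rw [← X.lx z]
    exact law_glue_fst X.nn (law_yx X Y) (fun ω => (X.x ω, X.b ω)) z
  ly := fun z => by
    rw [← Y.ly z, ← law_glue_snd Y.nn (law_yx X Y) (fun ω => (Y.y ω, Y.b ω)) z]
    refine law_supp (glue_nonneg X.nn Y.nn) (fun w hw => ?_) z
    have := glue_eq hw X.nn Y.nn
    simp only [Prod.mk.injEq] at this ⊢
    exact ⟨trivial, this.2⟩

theorem comp_h_right (X Y : Blk p₀ b₀ n₀) : Y.h ≤ (comp X Y).h := by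
  have h1 : CH (comp X Y).p (comp X Y).y (fun w => (X.x w.1, (X.y w.1, X.b w.1))) ≤
      (comp X Y).h := by
    refine CH_mono_cond (comp X Y).nn ?_
    intro w w' _ _ h
    simp only [Prod.mk.injEq] at h
    show ((comp X Y).x w, (comp X Y).b w) = ((comp X Y).x w', (comp X Y).b w')
    simp only [comp, Prod.mk.injEq]
    tauto
  have h2 := CH_snd_fst (T := G × B) X.nn Y.nn (law_yx X Y)
    (X := fun ω => (X.x ω, (X.y ω, X.b ω))) (fun _ _ _ _ h => (Prod.ext_iff.mp h).2) Y.y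
  have h3 : CH (comp X Y).p (comp X Y).y (fun w => (X.x w.1, (X.y w.1, X.b w.1))) = Y.h := h2
  linarith

theorem comp_h_left (X Y : Blk p₀ b₀ n₀) : X.h ≤ (comp X Y).h := by
  rw [h_symm (comp X Y), h_symm X]
  have h1 : CH (comp X Y).p (comp X Y).x (fun w => (Y.y w.2, (Y.x w.2, Y.b w.2))) ≤
      CH (comp X Y).p (comp X Y).x (fun w => ((comp X Y).y w, (comp X Y).b w)) := by
    refine CH_mono_cond (comp X Y).nn ?_
    intro w w' hw hw' h
    simp only [Prod.mk.injEq] at h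
    have hw1 : 0 < glue X.p Y.p (fun ω => (X.y ω, X.b ω)) (fun ω => (Y.x ω, Y.b ω)) w := hw
    have hw2 : 0 < glue X.p Y.p (fun ω => (X.y ω, X.b ω)) (fun ω => (Y.x ω, Y.b ω)) w' := hw'
    have e := glue_eq hw1 X.nn Y.nn
    have e' := glue_eq hw2 X.nn Y.nn
    simp only [Prod.mk.injEq] at e e'
    show (Y.y w.2, X.b w.1) = (Y.y w'.2, X.b w'.1)
    rw [e.2, e'.2, h.1, h.2.2]
  have h2 := CH_fst_snd (T := G × B) X.nn Y.nn (law_yx X Y) X.x
    (Y := fun ω => (Y.y ω, (Y.x ω, Y.b ω))) (fun _ _ _ _ h => (Prod.ext_iff.mp h).2)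
  have h3 : CH (comp X Y).p (comp X Y).x (fun w => (Y.y w.2, (Y.x w.2, Y.b w.2))) =
      CH X.p X.x (fun ω => (X.y ω, X.b ω)) := h2
  linarith

/-- The dependence is additive. -/
theorem comp_t (X Y : Blk p₀ b₀ n₀) : (comp X Y).t ≤ X.t + Y.t := by
  have h0 := (comp X Y).nn
  set q : X.Ω × Y.Ω → ℝ := glue X.p Y.p (fun ω => (X.y ω, X.b ω)) (fun ω => (Y.x ω, Y.b ω)) with hq
  have h0 : ∀ w, 0 ≤ q w := glue_nonneg X.nn Y.nn
  have hl := law_yx X Y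
  have hge : ∀ w, 0 < q w → X.y w.1 = Y.x w.2 ∧ X.b w.1 = Y.b w.2 := fun w hw => by
    have := glue_eq hw X.nn Y.nn
    simpa only [Prod.mk.injEq] using this
  have s1 : CH q (fun w => X.x w.1) (fun w => (X.y w.1 - X.x w.1, (Y.y w.2 - Y.x w.2, X.b w.1))) ≤
      CH q (fun w => X.x w.1) (fun w => (Y.y w.2 - X.x w.1, X.b w.1)) := by
    refine CH_mono_cond h0 ?_
    intro w w' hw hw' h
    simp only [Prod.mk.injEq] at h ⊢
    refine ⟨?_, h.2.2⟩
    have e : Y.y w.2 - X.x w.1 = (Y.y w.2 - Y.x w.2) + (X.y w.1 - X.x w.1) := by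
      rw [(hge w hw).1]; abel
    have e' : Y.y w'.2 - X.x w'.1 = (Y.y w'.2 - Y.x w'.2) + (X.y w'.1 - X.x w'.1) := by
      rw [(hge w' hw').1]; abel
    rw [e, e', h.1, h.2.1]
  have s2 : CH q (fun w => X.x w.1) (fun w => (X.y w.1 - X.x w.1, (Y.y w.2 - Y.x w.2, X.b w.1))) =
      CH q (fun w => X.y w.1) (fun w => (X.y w.1 - X.x w.1, (Y.y w.2 - Y.x w.2, X.b w.1))) := by
    refine CH_congr h0 ?_ ?_ (fun _ _ _ _ h => h) (fun _ _ _ _ h => h)
    · intro w w' _ _ h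
      simp only [Prod.mk.injEq] at h
      obtain ⟨a, c, d⟩ := h
      rw [a] at c
      exact sub_left_injective c
    · intro w w' _ _ h
      simp only [Prod.mk.injEq] at h
      obtain ⟨a, c, d⟩ := h
      rw [a] at c
      exact sub_right_injective c
  have s3 : H q (fun w => (X.y w.1, (X.y w.1 - X.x w.1, (Y.y w.2 - Y.x w.2, X.b w.1)))) =
      H X.p (fun ω => (X.y ω, (X.y ω - X.x ω, X.b ω))) +
        H Y.p (fun ω => (Y.x ω, (Y.y ω - Y.x ω, Y.b ω))) - H X.p (fun ω => (X.y ω, X.b ω)) := by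
    rw [← H_glue_pair (T := G × B) X.nn Y.nn hl
      (X := fun ω => (X.y ω, (X.y ω - X.x ω, X.b ω)))
      (Y := fun ω => (Y.x ω, (Y.y ω - Y.x ω, Y.b ω)))
      (by intro w w' _ _ h; simp only [Prod.mk.injEq] at h ⊢; tauto)
      (by intro w w' _ _ h; simp only [Prod.mk.injEq] at h ⊢; tauto)]
    refine H_congr h0 ?_ ?_
    · intro w w' _ _ h
      simp only [Prod.mk.injEq] at h ⊢
      tauto
    · intro w w' hw hw' h
      simp only [Prod.mk.injEq] at h ⊢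
      have e := hge w hw
      have e' := hge w' hw'
      rw [← e.1, ← e.2, ← e'.1, ← e'.2]
      rw [← e.1, ← e'.1] at h
      tauto
  have s4 := sub3 h0 (fun w => X.y w.1 - X.x w.1) (fun w => Y.y w.2 - Y.x w.2) (fun w => X.b w.1)
  have s5 : H q (fun w => (X.y w.1 - X.x w.1, X.b w.1)) =
      H X.p (fun ω => (X.y ω - X.x ω, X.b ω)) :=
    H_glue_fst X.nn hl (fun ω => (X.y ω - X.x ω, X.b ω))
  have s6 : H q (fun w => (Y.y w.2 - Y.x w.2, X.b w.1)) =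
      H Y.p (fun ω => (Y.y ω - Y.x ω, Y.b ω)) := by
    rw [← H_glue_snd Y.nn hl (fun ω => (Y.y ω - Y.x ω, Y.b ω))]
    exact H_supp h0 (fun w hw => by rw [(hge w hw).2])
  have s7 : H q (fun w => X.b w.1) = H X.p X.b := H_glue_fst X.nn hl X.b
  have s8 : H X.p (fun ω => (X.y ω, (X.y ω - X.x ω, X.b ω))) =
      H X.p (fun ω => (X.x ω, (X.y ω - X.x ω, X.b ω))) := by
    refine H_congr X.nn ?_ ?_
    · intro w w' _ _ h
      simp only [Prod.mk.injEq] at h ⊢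
      obtain ⟨a, c, d⟩ := h
      refine ⟨?_, c, d⟩
      have e := sub_add_cancel (X.y w) (X.x w)
      have e' := sub_add_cancel (X.y w') (X.x w')
      rw [← e, ← e', c, a]
    · intro w w' _ _ h
      simp only [Prod.mk.injEq] at h ⊢
      obtain ⟨a, c, d⟩ := h
      refine ⟨?_, c, d⟩
      rw [a] at c
      exact sub_right_injective c
  have g1 : (comp X Y).t = CH p₀ n₀ b₀ -
      CH q (fun w => X.x w.1) (fun w => (Y.y w.2 - X.x w.1, X.b w.1)) := rfl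
  have g2 := X.Hy
  have g3 := X.Hb
  rw [g1]
  unfold t
  unfold CH at s1 s2 ⊢
  linarith

/-- The block with two independent ends. -/
noncomputable def dbl (X : Blk p₀ b₀ n₀) : Blk p₀ b₀ n₀ := comp X.rev X

theorem dbl_t (X : Blk p₀ b₀ n₀) : X.dbl.t ≤ 2 * X.t := by
  have := comp_t X.rev X
  rw [rev_t] at this
  unfold dbl
  linarith

/-- The trivial block. -/
def triv (hp : ∀ ω, 0 ≤ p₀ ω) : Blk p₀ b₀ n₀ where
  Ω := Ω₀
  p := p₀
  nn := hp
  b := b₀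
  x := n₀
  y := n₀
  lx := fun _ => rfl
  ly := fun _ => rfl

theorem triv_t (hp : ∀ ω, 0 ≤ p₀ ω) : (triv (b₀ := b₀) (n₀ := n₀) hp).t = 0 := by
  unfold t
  show CH p₀ n₀ b₀ - CH p₀ n₀ (fun ω => (n₀ ω - n₀ ω, b₀ ω)) = 0
  rw [sub_eq_zero]
  refine CH_congr hp ?_ ?_ ?_ ?_
  · intro w w' _ _ h; exact (Prod.ext_iff.mp h).1
  · intro w w' _ _ h; exact (Prod.ext_iff.mp h).1
  · intro w w' _ _ h; simp [h]
  · intro w w' _ _ h; exact (Prod.ext_iff.mp h).2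

/-- One step: `n + g(V)` is kept and `V` is drawn anew. -/
noncomputable def step (hp : ∀ ω, 0 ≤ p₀ ω) (V : Ω₀ → A) (g : A → G) : Blk p₀ b₀ n₀ where
  Ω := Ω₀ × Ω₀
  p := glue p₀ p₀ (fun ω => (n₀ ω + g (V ω), b₀ ω)) (fun ω => (n₀ ω + g (V ω), b₀ ω))
  nn := glue_nonneg hp hp
  b := fun w => b₀ w.1
  x := fun w => n₀ w.1
  y := fun w => n₀ w.2
  lx := fun z => law_glue_fst hp (fun _ => rfl) (fun ω => (n₀ ω, b₀ ω)) z
  ly := fun z => by
    rw [← law_glue_snd hp (fun _ => rfl) (fun ω => (n₀ ω, b₀ ω)) z]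
    refine law_supp (glue_nonneg hp hp) (fun w hw => ?_) z
    have := glue_eq hw hp hp
    simp only [Prod.mk.injEq] at this ⊢
    exact ⟨trivial, this.2⟩

theorem step_t (hp : ∀ ω, 0 ≤ p₀ ω) (V : Ω₀ → A) (g : A → G) {d : ℝ}
    (h1 : CH p₀ n₀ b₀ - CH p₀ n₀ (fun ω => (V ω, b₀ ω)) ≤ d)
    (h2 : CH p₀ (fun ω => n₀ ω + g (V ω)) b₀ -
      CH p₀ (fun ω => n₀ ω + g (V ω)) (fun ω => (V ω, b₀ ω)) ≤ d) :
    (step (b₀ := b₀) (n₀ := n₀) hp V g).t ≤ 2 * d := by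
  set Z : Ω₀ → G × B := fun ω => (n₀ ω + g (V ω), b₀ ω) with hZ
  set q : Ω₀ × Ω₀ → ℝ := glue p₀ p₀ Z Z with hq
  have h0 : ∀ w, 0 ≤ q w := glue_nonneg hp hp
  have hge : ∀ w, 0 < q w → n₀ w.1 + g (V w.1) = n₀ w.2 + g (V w.2) ∧ b₀ w.1 = b₀ w.2 := by
    intro w hw
    have := glue_eq hw hp hp
    simpa only [hZ, Prod.mk.injEq] using this
  have s1 : CH q (fun w => n₀ w.1) (fun w => (V w.1, (V w.2, b₀ w.1))) ≤
      CH q (fun w => n₀ w.1) (fun w => (n₀ w.2 - n₀ w.1, b₀ w.1)) := by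
    refine CH_mono_cond h0 ?_
    intro w w' hw hw' h
    simp only [Prod.mk.injEq] at h ⊢
    refine ⟨?_, h.2.2⟩
    have e : n₀ w.2 - n₀ w.1 = g (V w.1) - g (V w.2) := by
      have := (hge w hw).1
      rw [sub_eq_sub_iff_add_eq_add, ← this, add_comm]
    have e' : n₀ w'.2 - n₀ w'.1 = g (V w'.1) - g (V w'.2) := by
      have := (hge w' hw').1
      rw [sub_eq_sub_iff_add_eq_add, ← this, add_comm]
    rw [e, e', h.1, h.2.1]
  have s2 : CH q (fun w => n₀ w.1) (fun w => (V w.1, (V w.2, b₀ w.1))) =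
      CH q (fun w => n₀ w.1 + g (V w.1)) (fun w => (V w.1, (V w.2, b₀ w.1))) := by
    refine CH_congr h0 ?_ ?_ (fun _ _ _ _ h => h) (fun _ _ _ _ h => h)
    · intro w w' _ _ h
      simp only [Prod.mk.injEq] at h
      show n₀ w.1 + g (V w.1) = n₀ w'.1 + g (V w'.1)
      rw [h.1, h.2.1]
    · intro w w' _ _ h
      simp only [Prod.mk.injEq] at h
      have h1 := h.1
      rw [h.2.1] at h1
      exact add_left_injective _ h1
  have s3 : H q (fun w => (n₀ w.1 + g (V w.1), (V w.1, (V w.2, b₀ w.1)))) =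
      H p₀ (fun ω => (V ω, Z ω)) + H p₀ (fun ω => (V ω, Z ω)) - H p₀ Z := by
    rw [← H_glue_pair hp hp (fun _ => rfl) (X := fun ω => (V ω, Z ω)) (Y := fun ω => (V ω, Z ω))
      (fun _ _ _ _ h => (Prod.ext_iff.mp h).2) (fun _ _ _ _ h => (Prod.ext_iff.mp h).2)]
    refine H_congr h0 ?_ ?_
    · intro w w' _ _ h
      simp only [hZ, Prod.mk.injEq] at h ⊢
      tauto
    · intro w w' hw hw' h
      simp only [hZ, Prod.mk.injEq] at h ⊢
      have e := hge w hw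
      have e' := hge w' hw'
      rw [← e.1, ← e.2, ← e'.1, ← e'.2]
      tauto
  have s4 := sub3 h0 (fun w => V w.1) (fun w => V w.2) (fun w => b₀ w.1)
  have s5 : H q (fun w => (V w.1, b₀ w.1)) = H p₀ (fun ω => (V ω, b₀ ω)) :=
    H_glue_fst hp (fun _ => rfl) (fun ω => (V ω, b₀ ω))
  have s6 : H q (fun w => (V w.2, b₀ w.1)) = H p₀ (fun ω => (V ω, b₀ ω)) := by
    rw [← H_glue_snd hp (fun _ => rfl) (fun ω => (V ω, b₀ ω))]
    exact H_supp h0 (fun w hw => by rw [(hge w hw).2])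
  have s7 : H q (fun w => b₀ w.1) = H p₀ b₀ := H_glue_fst hp (fun _ => rfl) b₀
  have s8 : H p₀ (fun ω => (V ω, Z ω)) =
      H p₀ (fun ω => (n₀ ω + g (V ω), (V ω, b₀ ω))) := by
    refine H_congr hp ?_ ?_ <;>
    · intro w w' _ _ h
      simp only [hZ, Prod.mk.injEq] at h ⊢
      tauto
  have s9 : H p₀ (fun ω => (n₀ ω + g (V ω), (V ω, b₀ ω))) =
      H p₀ (fun ω => (n₀ ω, (V ω, b₀ ω))) := by
    refine H_congr hp ?_ ?_
    · intro w w' _ _ h
      simp only [Prod.mk.injEq] at h ⊢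
      rw [h.1, h.2.1]
      exact ⟨rfl, rfl, h.2.2⟩
    · intro w w' _ _ h
      simp only [Prod.mk.injEq] at h ⊢
      have h1 := h.1
      rw [h.2.1] at h1
      exact ⟨add_left_injective _ h1, h.2⟩
  have s10 : H p₀ Z = H p₀ (fun ω => (n₀ ω + g (V ω), b₀ ω)) := rfl
  have g1 : (step (b₀ := b₀) (n₀ := n₀) hp V g).t = CH p₀ n₀ b₀ -
      CH q (fun w => n₀ w.1) (fun w => (n₀ w.2 - n₀ w.1, b₀ w.1)) := rfl
  rw [g1]
  unfold CH at h1 h2 s1 s2 ⊢
  linarith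

/-- The next block. -/
noncomputable def nxt (hp : ∀ ω, 0 ≤ p₀ ω) (V : Ω₀ → A) (X : Blk p₀ b₀ n₀) :
    List (A → G) → Blk p₀ b₀ n₀
  | [] => X.dbl
  | g :: L => comp (comp X (step hp V g)) (nxt hp V X L)

theorem nxt_dbl (hp : ∀ ω, 0 ≤ p₀ ω) (V : Ω₀ → A) (X : Blk p₀ b₀ n₀) (L : List (A → G)) :
    X.dbl.h ≤ (nxt hp V X L).h := by
  induction L with
  | nil => exact le_rfl
  | cons g L ih => exact ih.trans (comp_h_right _ _)

theorem nxt_step (hp : ∀ ω, 0 ≤ p₀ ω) (V : Ω₀ → A) (X : Blk p₀ b₀ n₀) (L : List (A → G)) {g : A → G}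
    (hg : g ∈ L) : (comp X (step hp V g)).h ≤ (nxt hp V X L).h := by
  induction L with
  | nil => simp at hg
  | cons g' L ih =>
    rcases List.mem_cons.mp hg with rfl | h
    · exact comp_h_left _ _
    · exact (ih h).trans (comp_h_right _ _)

theorem nxt_self (hp : ∀ ω, 0 ≤ p₀ ω) (V : Ω₀ → A) (X : Blk p₀ b₀ n₀) (L : List (A → G)) :
    X.h ≤ (nxt hp V X L).h := (comp_h_right X.rev X).trans (nxt_dbl hp V X L)

theorem nxt_t (hp : ∀ ω, 0 ≤ p₀ ω) (V : Ω₀ → A) (X : Blk p₀ b₀ n₀) (L : List (A → G)) {d : ℝ}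
    (h1 : CH p₀ n₀ b₀ - CH p₀ n₀ (fun ω => (V ω, b₀ ω)) ≤ d)
    (h2 : ∀ g ∈ L, CH p₀ (fun ω => n₀ ω + g (V ω)) b₀ -
      CH p₀ (fun ω => n₀ ω + g (V ω)) (fun ω => (V ω, b₀ ω)) ≤ d) :
    (nxt hp V X L).t ≤ 2 * X.t + L.length * (X.t + 2 * d) := by
  induction L with
  | nil => simpa [nxt] using dbl_t X
  | cons g L ih =>
    have i1 := ih (fun g hg => h2 g (List.mem_cons_of_mem _ hg))
    have i2 := step_t (b₀ := b₀) (n₀ := n₀) hp V g h1 (h2 g List.mem_cons_self)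
    have i3 := comp_t X (step (b₀ := b₀) (n₀ := n₀) hp V g)
    have i4 := comp_t (comp X (step hp V g)) (nxt hp V X L)
    show (comp (comp X (step hp V g)) (nxt hp V X L)).t ≤ _
    rw [List.length_cons]
    push_cast
    linarith

/-- **The pigeonhole.** -/
theorem pigeon (hp : ∀ ω, 0 ≤ p₀ ω) (V : Ω₀ → A) (L : List (A → G)) {d η : ℝ} (n : ℕ)
    (h1 : CH p₀ n₀ b₀ - CH p₀ n₀ (fun ω => (V ω, b₀ ω)) ≤ d)
    (h2 : ∀ g ∈ L, CH p₀ (fun ω => n₀ ω + g (V ω)) b₀ -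
      CH p₀ (fun ω => n₀ ω + g (V ω)) (fun ω => (V ω, b₀ ω)) ≤ d)
    (hd : 0 ≤ d) (hn : CH p₀ n₀ b₀ < n * η) :
    ∃ X : Blk p₀ b₀ n₀, X.t ≤ 2 * (L.length + 2) ^ n * d ∧ X.dbl.h ≤ X.h + η ∧
      ∀ g ∈ L, (comp X (step hp V g)).h ≤ X.h + η := by
  -- the sequence of blocks
  set S : ℕ → Blk p₀ b₀ n₀ := fun i => Nat.rec (triv hp) (fun _ X => nxt hp V X L) i with hS
  have hS1 : ∀ i, S (i + 1) = nxt hp V (S i) L := fun i => rfl
  have ht : ∀ i, (S i).t + 2 * d ≤ 2 * (L.length + 2) ^ i * d := by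
    intro i
    induction i with
    | zero =>
      have : (S 0).t = 0 := triv_t hp
      rw [this]; simp
    | succ i ih =>
      have i1 := nxt_t hp V (S i) L h1 h2
      rw [← hS1] at i1
      have i2 : ((L.length : ℝ) + 2) * ((S i).t + 2 * d) ≤
          (L.length + 2) * (2 * (L.length + 2) ^ i * d) :=
        mul_le_mul_of_nonneg_left ih (by positivity)
      have i3 : ((L.length : ℝ) + 2) * (2 * (L.length + 2) ^ i * d) =
          2 * (L.length + 2) ^ (i + 1) * d := by ring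
      nlinarith [i1, i2, i3, hd]
  by_contra hcon
  push Not at hcon
  have hlt : ∀ i, i < n → (S i).h + η < (S (i + 1)).h := by
    intro i hi
    by_contra hle
    push Not at hle
    have c1 : (S i).t ≤ 2 * (L.length + 2) ^ n * d := by
      have a1 := ht i
      have a2 : (2 : ℝ) * (L.length + 2) ^ i * d ≤ 2 * (L.length + 2) ^ n * d := by
        refine mul_le_mul_of_nonneg_right ?_ hd
        refine mul_le_mul_of_nonneg_left ?_ (by norm_num)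
        exact pow_le_pow_right₀ (by linarith [Nat.cast_nonneg (α := ℝ) L.length]) hi.le
      linarith
    have c2 : (S i).dbl.h ≤ (S i).h + η := (nxt_dbl hp V (S i) L).trans hle
    obtain ⟨g, hg, hg2⟩ := hcon (S i) c1 c2
    have c3 := (nxt_step hp V (S i) L hg).trans hle
    linarith
  have hsum : ∀ i, i ≤ n → (i : ℝ) * η ≤ (S i).h := by
    intro i
    induction i with
    | zero => intro _; simpa using (S 0).h_nonneg
    | succ i ih =>
      intro hi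
      have a1 := ih (by omega)
      have a2 := hlt i (by omega)
      push_cast
      linarith
  have a1 := hsum n le_rfl
  have a2 := (S n).h_le
  linarith

end Blk

end Pool.CH30
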