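import Pool.Agent.H30.CH.Dis

/-!
# The composition lemma

`n`, `V` are random, `n` and all `n + g(V)` are almost independent of `V` given the context. Then
there is side information `z`, almost independent of `V`, such that for copies `v i` of `V` given `z` all
integer combinations of the `g j (v i)` (several `j` with the same `i`) have small entropy given `z`,
and are absorbed by a copy `N` of `n`. (helper81; the proof is helper54's.)
-/

set_option autoImplicit false
set_option linter.unusedSectionVars false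
set_option linter.unusedVariables false

namespace Pool.CH30

open Finset
open Pool.Agent.H49.Ent Pool.Agent.H32.Dense

section maps

variable {Ω Ω' : Type} [Fintype Ω] [Fintype Ω'] {S T : Type}

theorem law_map {p : Ω → ℝ} {q : Ω' → ℝ} {X : Ω → S} {Y : Ω' → S}
    (h : ∀ s, law p X s = law q Y s) (φ : S → T) (t : T) :
    law p (fun ω => φ (X ω)) t = law q (fun ω => φ (Y ω)) t := by
  classical
  have e : ∀ {Ω : Type} [Fintype Ω] (p : Ω → ℝ) (X : Ω → S) (F : Finset S), univ.image X ⊆ F →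
      law p (fun ω => φ (X ω)) t = ∑ s ∈ F, if φ s = t then law p X s else 0 := by
    intro Ω _ p X F hF
    unfold law
    have e1 : ∀ s ∈ F, (if φ s = t then ∑ ω, (if X ω = s then p ω else 0) else 0) =
        ∑ ω, (if X ω = s then (if φ s = t then p ω else 0) else 0) := by
      intro s _
      by_cases hs : φ s = t <;> simp [hs]
    rw [Finset.sum_congr rfl e1, Finset.sum_comm]
    refine Finset.sum_congr rfl fun ω _ => ?_
    rw [Finset.sum_eq_single (X ω)]
    · simp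
    · intro g _ hg
      rw [if_neg (Ne.symm hg)]
    · intro hh
      exact absurd (hF (Finset.mem_image_of_mem _ (Finset.mem_univ _))) hh
  rw [e p X (univ.image X ∪ univ.image Y) subset_union_left,
    e q Y (univ.image X ∪ univ.image Y) subset_union_right]
  exact Finset.sum_congr rfl fun s _ => by rw [h s]

end maps

variable {Ω₀ : Type} [Fintype Ω₀] {G B A : Type} [AddCommGroup G]
  {p₀ : Ω₀ → ℝ} {b₀ : Ω₀ → B} {n₀ : Ω₀ → G}

section base

variable {Γ K : Type} [Fintype Γ] (X : Blk p₀ b₀ n₀) {q : Γ → ℝ} {e : Γ → G × B}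

/-- The distance of two copies. -/
theorem base_le (hq : ∀ ω, 0 ≤ q ω) (hl : ∀ s, law q e s = law X.p (fun ω => (X.x ω, X.b ω)) s)
    {z : Γ → K} (hz : Det q z e) :
    CH (cp2 q e X.p (fun ω => (X.x ω, X.b ω))) (fun w => X.y w.1.2 - X.y w.2) (fun w => z w.1.1) ≤
      X.dbl.h + X.dbl.t := by
  set f : X.Ω → G × B := fun ω => (X.x ω, X.b ω) with hf
  have hr := X.nn
  have h0 := cp2_nn (e := e) (f := f) hq hr
  have g1 : cp2 q e X.p f = glue (cp q e X.p f) X.p (fun w => f w.2) f :=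
    glue_congr (glue_nonneg hq hr) (fun w hw => glue_eq hw hq hr)
  have hsnd : Push (cp q e X.p f) X.p Prod.snd := push_snd hr hl
  have hpush : Push (cp2 q e X.p f) (glue X.p X.p f f) (fun w => (w.1.2, w.2)) := by
    rw [g1]
    exact push_left (p₂ := X.p) hsnd f f
  have s1 : CH (cp2 q e X.p f) (fun w => X.y w.1.2 - X.y w.2) (fun w => z w.1.1) ≤
      CH (cp2 q e X.p f) (fun w => X.y w.1.2 - X.y w.2) (fun w => X.b w.1.2) := by
    refine CH_mono_cond h0 ?_
    intro w w' hw hw' h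
    have a1 := ((glue_pos_iff (glue_nonneg hq hr) hr w).mp hw).1
    have a2 := ((glue_pos_iff (glue_nonneg hq hr) hr w').mp hw').1
    have b1 := (glue_pos_iff hq hr w.1).mp a1
    have b2 := (glue_pos_iff hq hr w'.1).mp a2
    have c := hz _ _ b1.1 b2.1 h
    rw [b1.2.2, b2.2.2] at c
    exact (Prod.ext_iff.mp c).2
  have s2 : CH (cp2 q e X.p f) (fun w => X.y w.1.2 - X.y w.2) (fun w => X.b w.1.2) =
      CH (glue X.p X.p f f) (fun w => X.y w.1 - X.y w.2) (fun w => X.b w.1) :=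
    hpush.CH (fun w => X.y w.1 - X.y w.2) (fun w => X.b w.1)
  have s3 : CH (glue X.p X.p f f) (fun w => X.y w.1 - X.y w.2) (fun w => X.b w.1) =
      CH X.dbl.p (fun w => X.dbl.y w - X.dbl.x w) X.dbl.b := by
    have : CH (glue X.p X.p f f) (fun w => X.y w.1 - X.y w.2) (fun w => X.b w.1) =
        CH (glue X.p X.p f f) (fun w => X.y w.2 - X.y w.1) (fun w => X.b w.1) := by
      refine CH_congr (glue_nonneg hr hr) ?_ ?_ (fun _ _ _ _ h => h) (fun _ _ _ _ h => h)
      · intro w w' _ _ h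
        have h1 := (Prod.ext_iff.mp h).1
        simp only at h1
        show X.y w.2 - X.y w.1 = X.y w'.2 - X.y w'.1
        rw [← neg_sub, h1, neg_sub]
      · intro w w' _ _ h
        have h1 := (Prod.ext_iff.mp h).1
        simp only at h1
        show X.y w.1 - X.y w.2 = X.y w'.1 - X.y w'.2
        rw [← neg_sub, h1, neg_sub]
    rw [this]
    rfl
  have s4 := X.dbl.disp
  linarith

/-- The distance of a copy from a known point. -/
theorem near_le (hq : ∀ ω, 0 ≤ q ω) (hl : ∀ s, law q e s = law X.p (fun ω => (X.x ω, X.b ω)) s)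
    {z : Γ → K} (hz : Det q z e) {π : Γ → X.Ω} (hπ : Push q X.p π)
    (he : ∀ l, 0 < q l → e l = (X.x (π l), X.b (π l))) {ν u : Γ → G} (hν : Det q z ν)
    (hu : ∀ l, 0 < q l → ν l = X.y (π l) + u l) :
    CH (cp q e X.p (fun ω => (X.x ω, X.b ω))) (fun w => X.y w.2 + u w.1) (fun w => z w.1) ≤
      X.dbl.h + X.dbl.t := by
  set f : X.Ω → G × B := fun ω => (X.x ω, X.b ω) with hf
  have hr := X.nn
  have h0 := cp_nn (e := e) (f := f) hq hr
  have hpos : ∀ w, 0 < cp q e X.p f w → 0 < q w.1 := fun w hw => ((glue_pos_iff hq hr w).mp hw).1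
  have g1 : cp q e X.p f = glue q X.p (fun l => f (π l)) f := glue_congr hq he
  have hpush : Push (cp q e X.p f) (glue X.p X.p f f) (fun w => (π w.1, w.2)) := by
    rw [g1]
    exact push_left (p₂ := X.p) hπ f f
  have s0 : CH (cp q e X.p f) (fun w => X.y w.2 + u w.1) (fun w => z w.1) =
      CH (cp q e X.p f) (fun w => X.y w.2 - X.y (π w.1)) (fun w => z w.1) := by
    refine CH_congr h0 ?_ ?_ (fun _ _ _ _ h => h) (fun _ _ _ _ h => h)
    · intro w w' hw hw' h
      simp only [Prod.mk.injEq] at h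
      have n1 := hν _ _ (hpos w hw) (hpos w' hw') h.2
      have e1 : X.y w.2 - X.y (π w.1) = (X.y w.2 + u w.1) - ν w.1 := by
        rw [hu _ (hpos w hw)]; abel
      have e2 : X.y w'.2 - X.y (π w'.1) = (X.y w'.2 + u w'.1) - ν w'.1 := by
        rw [hu _ (hpos w' hw')]; abel
      show X.y w.2 - X.y (π w.1) = X.y w'.2 - X.y (π w'.1)
      rw [e1, e2, h.1, n1]
    · intro w w' hw hw' h
      simp only [Prod.mk.injEq] at h
      have n1 := hν _ _ (hpos w hw) (hpos w' hw') h.2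
      have e1 : X.y w.2 + u w.1 = (X.y w.2 - X.y (π w.1)) + ν w.1 := by
        rw [hu _ (hpos w hw)]; abel
      have e2 : X.y w'.2 + u w'.1 = (X.y w'.2 - X.y (π w'.1)) + ν w'.1 := by
        rw [hu _ (hpos w' hw')]; abel
      show X.y w.2 + u w.1 = X.y w'.2 + u w'.1
      rw [e1, e2, h.1, n1]
  have s1 : CH (cp q e X.p f) (fun w => X.y w.2 - X.y (π w.1)) (fun w => z w.1) ≤
      CH (cp q e X.p f) (fun w => X.y w.2 - X.y (π w.1)) (fun w => X.b (π w.1)) := by
    refine CH_mono_cond h0 ?_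
    intro w w' hw hw' h
    have c := hz _ _ (hpos w hw) (hpos w' hw') h
    rw [he _ (hpos w hw), he _ (hpos w' hw')] at c
    exact (Prod.ext_iff.mp c).2
  have s2 : CH (cp q e X.p f) (fun w => X.y w.2 - X.y (π w.1)) (fun w => X.b (π w.1)) =
      CH (glue X.p X.p f f) (fun w => X.y w.2 - X.y w.1) (fun w => X.b w.1) :=
    hpush.CH (fun w => X.y w.2 - X.y w.1) (fun w => X.b w.1)
  have s3 : CH (glue X.p X.p f f) (fun w => X.y w.2 - X.y w.1) (fun w => X.b w.1) =
      CH X.dbl.p (fun w => X.dbl.y w - X.dbl.x w) X.dbl.b := rfl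
  have s4 := X.dbl.disp
  linarith

end base

section copies

variable {Λ K : Type} [Fintype Λ] {q : Λ → ℝ} (hq : ∀ ω, 0 ≤ q ω) (z : Λ → K)

include hq in
/-- Copies which are independent given `z`. -/
theorem copies (R : ℕ) : ∃ (Γ : Type) (_ : Fintype Γ) (r : Γ → ℝ) (ρ : Fin R → Γ → Λ) (y : Γ → K),
    (∀ ω, 0 ≤ r ω) ∧ (∀ s, law r y s = law q z s) ∧ (∀ i, Push r q (ρ i)) ∧
    (∀ i ω, 0 < r ω → z (ρ i ω) = y ω) ∧
    (∀ {S : Type} (X : Fin R → Λ → S), CH r (fun ω i => X i (ρ i ω)) y = ∑ i, CH q (X i) z) := by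
  induction R with
  | zero =>
    refine ⟨Λ, inferInstance, q, fun i => i.elim0, z, hq, fun _ => rfl, fun i => i.elim0,
      fun i => i.elim0, ?_⟩
    intro S X
    rw [Fin.sum_univ_zero]
    exact CH_eq_zero hq (fun ω ω' _ _ _ => by funext i; exact i.elim0)
  | succ R ih =>
    obtain ⟨Γ, iΓ, r, ρ, y, hr, hl, hp, he, hi⟩ := ih
    obtain ⟨r', hr'⟩ : ∃ r' : Γ × Λ → ℝ, r' = glue r q y z := ⟨_, rfl⟩
    have h0 : ∀ w, 0 ≤ r' w := by rw [hr']; exact glue_nonneg hr hq
    have hpos : ∀ w, 0 < r' w → 0 < r w.1 ∧ 0 < q w.2 ∧ y w.1 = z w.2 := fun w hw => by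
      rw [hr'] at hw; exact (glue_pos_iff hr hq w).mp hw
    have hf : Push r' r Prod.fst := by rw [hr']; exact push_fst hr hl
    have hs : Push r' q Prod.snd := by rw [hr']; exact push_snd hq hl
    refine ⟨Γ × Λ, inferInstance, r', Fin.cases (fun w => w.2) (fun i w => ρ i w.1),
      fun w => y w.1, h0, ?_, ?_, ?_, ?_⟩
    · intro s
      rw [← hl s]
      exact hf.law y s
    · intro i
      refine Fin.cases ?_ (fun i => ?_) i
      · exact hs
      · exact (hp i).comp hf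
    · intro i w hw
      refine Fin.cases ?_ (fun i => ?_) i
      · exact (hpos w hw).2.2.symm
      · exact he i w.1 (hpos w hw).1
    · intro S X
      rw [Fin.sum_univ_succ, ← hi (fun i => X i.succ)]
      have e1 : CH r' (fun w (i : Fin (R + 1)) => X i
          ((Fin.cases (fun w => w.2) (fun i w => ρ i w.1) : Fin (R + 1) → Γ × Λ → Λ) i w))
          (fun w => y w.1) =
          CH r' (fun w => (X 0 w.2, fun i : Fin R => X i.succ (ρ i w.1))) (fun w => y w.1) := by
        refine CH_congr h0 ?_ ?_ (fun _ _ _ _ h => h) (fun _ _ _ _ h => h)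
        · intro w w' _ _ h
          have h1 := (Prod.ext_iff.mp h).1
          refine Prod.ext ?_ ?_
          · exact congrFun h1 0
          · funext i
            exact congrFun h1 i.succ
        · intro w w' _ _ h
          simp only [Prod.mk.injEq] at h
          funext i
          refine Fin.cases ?_ (fun i => ?_) i
          · exact h.1.1
          · exact congrFun h.1.2 i
      rw [e1, CH_chain h0]
      have e2 : CH r' (fun w => X 0 w.2) (fun w => (fun i : Fin R => X i.succ (ρ i w.1), y w.1)) =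
          CH q (X 0) z := by
        rw [hr']
        exact CH_snd_fst hr hq hl (X := fun ω => (fun i : Fin R => X i.succ (ρ i ω), y ω))
          (fun _ _ _ _ h => (Prod.ext_iff.mp h).2) (X 0)
      have e3 : CH r' (fun w (i : Fin R) => X i.succ (ρ i w.1)) (fun w => y w.1) =
          CH r (fun ω (i : Fin R) => X i.succ (ρ i ω)) y :=
        hf.CH (fun ω (i : Fin R) => X i.succ (ρ i ω)) y
      rw [e2, e3]
      ring

end copies

/-- **The composition lemma.** -/
theorem comp_thm (hp : ∀ ω, 0 ≤ p₀ ω) (b₀ : Ω₀ → B) (n₀ : Ω₀ → G) (V : Ω₀ → A) {M : ℕ}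
    (g : Fin M → A → G) {d η : ℝ} (n : ℕ) (hd : 0 ≤ d)
    (h1 : CH p₀ n₀ b₀ - CH p₀ n₀ (fun ω => (V ω, b₀ ω)) ≤ d)
    (h2 : ∀ j, CH p₀ (fun ω => n₀ ω + g j (V ω)) b₀ -
      CH p₀ (fun ω => n₀ ω + g j (V ω)) (fun ω => (V ω, b₀ ω)) ≤ d)
    (hn : CH p₀ n₀ b₀ < n * η) (R : ℕ) :
    ∃ (Γ : Type) (_ : Fintype Γ) (q : Γ → ℝ) (K : Type) (z : Γ → K) (β : Γ → B)
      (v : Fin R → Γ → A) (N : Γ → G),
      (∀ ω, 0 ≤ q ω) ∧ (∑ ω, q ω = ∑ ω, p₀ ω) ∧ Det q z β ∧
      (∀ i s, law q (fun ω => (v i ω, β ω)) s = law p₀ (fun ω => (V ω, b₀ ω)) s) ∧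
      (∀ s, law q (fun ω => (N ω, β ω)) s = law p₀ (fun ω => (n₀ ω, b₀ ω)) s) ∧
      (∀ i i' s, law q (fun ω => (v i ω, z ω)) s = law q (fun ω => (v i' ω, z ω)) s) ∧
      (∀ i, CH p₀ V b₀ - (d + M * (η + 2 * d)) ≤ CH q (v i) z) ∧
      (∀ {S : Type} (X : Fin R → A → S),
        CH q (fun ω i => X i (v i ω)) z = ∑ i, CH q (fun ω => X i (v i ω)) z) ∧
      CH q N (fun ω => (fun i => v i ω, z ω)) = CH q N z ∧
      ∀ a : Fin R → Fin M → ℤ,
        CH q (fun ω => ∑ i, ∑ j, a i j • g j (v i ω)) z ≤ CH p₀ n₀ b₀ +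
          (1 + 2 * ∑ i, ∑ j, |(a i j : ℝ)|) * (η + 4 * ((M : ℝ) + 2) ^ n * d) ∧
        CH q (fun ω => N ω + ∑ i, ∑ j, a i j • g j (v i ω)) z ≤ CH q N z +
          (1 + 2 * ∑ i, ∑ j, |(a i j : ℝ)|) * (η + 4 * ((M : ℝ) + 2) ^ n * d) := by
  classical
  -- the block
  obtain ⟨X, hXt, hXd, hXs⟩ := Blk.pigeon (b₀ := b₀) (n₀ := n₀) hp V (List.ofFn g) (η := η) n h1
    (fun g' hg' => by obtain ⟨j, rfl⟩ := (List.mem_ofFn' g g').mp hg'; exact h2 j) hd hn
  rw [List.length_ofFn] at hXt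
  obtain ⟨e', he'⟩ : ∃ e' : ℝ, e' = η + 4 * ((M : ℝ) + 2) ^ n * d := ⟨_, rfl⟩
  have hdisp : X.dbl.h + X.dbl.t ≤ X.h + e' := by
    have := X.dbl_t
    rw [he']
    linarith
  -- the side information
  obtain ⟨Λ, iΛ, q, c, x, hq, hc, hI, hρ⟩ := X.lam hp V (η := η) h1 (List.ofFn g)
    (fun g' hg' => by obtain ⟨j, rfl⟩ := (List.mem_ofFn' g g').mp hg'; exact h2 j) hXs
  rw [List.length_ofFn] at hI
  obtain ⟨e, hee⟩ : ∃ e : Λ → G × B, e = fun l => ((c l).1, (c l).2.2) := ⟨_, rfl⟩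
  obtain ⟨z, hz⟩ : ∃ z : Λ → List G × (G × B), z = fun l => (x l, e l) := ⟨_, rfl⟩
  set f : X.Ω → G × B := fun ω => (X.x ω, X.b ω) with hf
  have hW := X.W_nn hp
  have hle : ∀ s, law q e s = law X.p f s := by
    intro s
    rw [hee, law_map hc (fun u => (u.1, u.2.2)) s]
    exact X.W_fst.law (fun ω => (X.x ω, X.b ω)) s
  have hdz : Det q z e := by
    rw [hz]
    exact fun _ _ _ _ h => (Prod.ext_iff.mp h).2
  have hVb : ∀ s, law q (fun l => ((c l).2.1, (c l).2.2)) s =
      law p₀ (fun ω => (V ω, b₀ ω)) s := by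
    intro s
    rw [law_map hc (fun u => (u.2.1, u.2.2)) s, ← (X.W_snd hp).law (fun ω => (V ω, b₀ ω))]
    exact law_supp hW (fun w hw => by
      show (V w.2, X.b w.1) = (V w.2, b₀ w.2)
      rw [(X.W_eq hp hw).2]) s
  -- the price of the side information
  have hprice : CH p₀ V b₀ - (d + M * (η + 2 * d)) ≤ CH q (fun l => (c l).2.1) z := by
    have a1 := X.W_label hp V h1
    have a2 : CH q (fun l => (c l).2.1) (fun l => ((c l).1, (c l).2.2)) =
        CH X.W (fun w => V w.2) (fun w => (X.x w.1, X.b w.1)) := by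
      unfold CH
      rw [H_law (law_map hc (fun u => (u.2.1, (u.1, u.2.2)))),
        H_law (law_map hc (fun u => (u.1, u.2.2)))]
      rfl
    have a3 : z = fun l => (x l, ((c l).1, (c l).2.2)) := by rw [hz, hee]
    rw [a3]
    linarith
  -- one term
  have hterm : ∀ j, Fd q e X.p f z X.y (fun l => g j (c l).2.1) ≤ CH X.p X.y f + 2 * e' := by
    intro j
    have k1 := Fd_kv hq X.nn hle hdz X.y (fun l => g j (c l).2.1)
    have k2 := base_le X hq hle hdz
    obtain ⟨ρ, r1, r2, r3⟩ := hρ (g j) ((List.mem_ofFn' g (g j)).mpr ⟨j, rfl⟩)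
    have hWp : ∀ l, 0 < q l → 0 < X.W (ρ l) := fun l hl => r1.pos hq hl
    have k3 := near_le X hq hle hdz (π := fun l => (ρ l).1) (X.W_fst.comp r1)
      (fun l hl => by
        have := r2 l hl
        rw [hee]
        simp only
        rw [← this]
        rfl)
      (ν := fun l => n₀ (ρ l).2 + g j (V (ρ l).2)) (u := fun l => g j (c l).2.1)
      (by
        rw [hz]
        exact fun l l' a b h => r3 l l' a b (Prod.ext_iff.mp h).1)
      (fun l hl => by
        have := r2 l hl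
        rw [← this, (X.W_eq hp (hWp l hl)).1]
        rfl)
    have k4 : CH X.p X.y f = X.h := rfl
    linarith
  -- the copies
  obtain ⟨Γ, iΓ, r, ρ, y, hr, hly, hpr, hey, hind⟩ := copies hq z R
  obtain ⟨eΓ, heΓ⟩ : ∃ eΓ : Γ → G × B, eΓ = fun ω => (y ω).2 := ⟨_, rfl⟩
  have hz2 : ∀ l, (z l).2 = e l := fun l => by rw [hz]
  have hleΓ : ∀ s, law r eΓ s = law X.p f s := by
    intro s
    rw [heΓ, law_map hly (fun u => u.2) s, ← hle s]
    exact congrArg (fun F => law q F s) (funext hz2)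
  have hdzΓ : Det r y eΓ := by
    rw [heΓ]
    exact fun _ _ _ _ h => congrArg (fun t => t.2) h
  have hbaseΓ := base_le X hr hleΓ hdzΓ
  have htermΓ : ∀ i j, Fd r eΓ X.p f y X.y (fun ω => g j (c (ρ i ω)).2.1) ≤
      CH X.p X.y f + 2 * e' := by
    intro i j
    refine le_trans (le_of_eq ?_) (hterm j)
    rw [← Fd_push (e := e) (f := f) (r := X.p) (z := z) X.y (hpr i) (fun l => g j (c l).2.1)]
    refine Fd_supp X.y hr X.nn (fun ω hω => ?_) (fun ω hω => ?_) (fun _ _ => rfl)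
    · rw [heΓ]
      simp only
      rw [← hey i ω hω, hz2]
    · exact (hey i ω hω).symm
  -- sums
  have hsum : ∀ (a : Fin R → Fin M → ℤ), Fd r eΓ X.p f y X.y
      (fun ω => ∑ i, ∑ j, a i j • g j (c (ρ i ω)).2.1) ≤
      CH X.p X.y f + (1 + 2 * ∑ i, ∑ j, |(a i j : ℝ)|) * e' := by
    intro a
    have key : ∀ s : Finset (Fin R × Fin M), Fd r eΓ X.p f y X.y
        (fun ω => ∑ p ∈ s, a p.1 p.2 • g p.2 (c (ρ p.1 ω)).2.1) ≤
        CH X.p X.y f + (1 + 2 * ∑ p ∈ s, |(a p.1 p.2 : ℝ)|) * e' := by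
      intro s
      induction s using Finset.induction_on with
      | empty =>
        have e1 : Fd r eΓ X.p f y X.y
            (fun ω => ∑ p ∈ (∅ : Finset (Fin R × Fin M)), a p.1 p.2 • g p.2 (c (ρ p.1 ω)).2.1) =
            CH (cp2 r eΓ X.p f) (fun w => X.y w.1.2 - X.y w.2) (fun w => y w.1.1) := by
          unfold Fd
          simp
        rw [e1]
        have k4 : CH X.p X.y f = X.h := rfl
        simp only [Finset.sum_empty]
        linarith
      | insert p s hps ih =>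
        have e1 : (fun ω => ∑ p ∈ insert p s, a p.1 p.2 • g p.2 (c (ρ p.1 ω)).2.1) =
            fun ω => (∑ p ∈ s, a p.1 p.2 • g p.2 (c (ρ p.1 ω)).2.1) +
              a p.1 p.2 • g p.2 (c (ρ p.1 ω)).2.1 := by
          funext ω
          rw [Finset.sum_insert hps, add_comm]
        rw [e1, Finset.sum_insert hps]
        have k1 := Fd_add_zsmul hr X.nn hleΓ hdzΓ X.y
          (U := fun ω => ∑ p ∈ s, a p.1 p.2 • g p.2 (c (ρ p.1 ω)).2.1)
          (U' := fun ω => g p.2 (c (ρ p.1 ω)).2.1) (htermΓ p.1 p.2) (a p.1 p.2)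
        refine k1.trans ?_
        linarith
    have k := key univ
    have e1 : (fun ω => ∑ p : Fin R × Fin M, a p.1 p.2 • g p.2 (c (ρ p.1 ω)).2.1) =
        fun ω => ∑ i, ∑ j, a i j • g j (c (ρ i ω)).2.1 := by
      funext ω
      exact Fintype.sum_prod_type _
    have e2 : ∑ p : Fin R × Fin M, |(a p.1 p.2 : ℝ)| = ∑ i, ∑ j, |(a i j : ℝ)| :=
      Fintype.sum_prod_type _
    rw [e1, e2] at k
    exact k
  -- the final space
  obtain ⟨q', hq'⟩ : ∃ q' : Γ × X.Ω → ℝ, q' = cp r eΓ X.p f := ⟨_, rfl⟩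
  have h0 : ∀ w, 0 ≤ q' w := by rw [hq']; exact cp_nn hr X.nn
  have hfst : Push q' r Prod.fst := by rw [hq']; exact cp_push hr hleΓ
  have hsnd : Push q' X.p Prod.snd := by rw [hq']; exact push_snd X.nn hleΓ
  have hpos : ∀ w, 0 < q' w → 0 < r w.1 ∧ 0 < X.p w.2 ∧ eΓ w.1 = f w.2 := fun w hw => by
    rw [hq'] at hw; exact (glue_pos_iff hr X.nn w).mp hw
  have hcb : ∀ i ω, 0 < r ω → (c (ρ i ω)).2.2 = (eΓ ω).2 := fun i ω hω => by
    rw [heΓ]
    simp only
    rw [← hey i ω hω, hz2, hee]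
  refine ⟨Γ × X.Ω, inferInstance, q', List G × (G × B), fun w => y w.1, fun w => (eΓ w.1).2,
    fun i w => (c (ρ i w.1)).2.1, fun w => X.y w.2, h0, ?_, ?_, ?_, ?_, ?_, ?_, ?_, ?_, ?_⟩
  · rw [hsnd.sum]
    have := X.lx
    have e1 := law_map X.lx (fun _ => ()) ()
    unfold law at e1
    simpa using e1
  · intro w w' _ _ h
    simp only [heΓ] at h ⊢
    rw [h]
  · intro i s
    have e1 : law q' (fun w => ((c (ρ i w.1)).2.1, (eΓ w.1).2)) s =
        law r (fun ω => ((c (ρ i ω)).2.1, (eΓ ω).2)) s :=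
      hfst.law (fun ω => ((c (ρ i ω)).2.1, (eΓ ω).2)) s
    rw [e1, ← hVb s, ← (hpr i).law (fun l => ((c l).2.1, (c l).2.2)) s]
    exact law_supp hr (fun ω hω => by rw [hcb i ω hω]) s
  · intro s
    rw [← X.ly s, ← hsnd.law (fun ω => (X.y ω, X.b ω)) s]
    exact law_supp h0 (fun w hw => by
      show (X.y w.2, (eΓ w.1).2) = (X.y w.2, X.b w.2)
      rw [(hpos w hw).2.2]) s
  · intro i i' s
    have e1 : ∀ i, law q' (fun w => ((c (ρ i w.1)).2.1, y w.1)) s =
        law q (fun l => ((c l).2.1, z l)) s := by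
      intro i
      rw [← (hpr i).law (fun l => ((c l).2.1, z l)) s]
      have e2 : law q' (fun w => ((c (ρ i w.1)).2.1, y w.1)) s =
          law r (fun ω => ((c (ρ i ω)).2.1, y ω)) s :=
        hfst.law (fun ω => ((c (ρ i ω)).2.1, y ω)) s
      rw [e2]
      exact law_supp hr (fun ω hω => by rw [hey i ω hω]) s
    rw [e1 i, e1 i']
  · intro i
    refine hprice.trans (le_of_eq ?_)
    have e2 : CH q' (fun w => (c (ρ i w.1)).2.1) (fun w => y w.1) =
        CH r (fun ω => (c (ρ i ω)).2.1) y := hfst.CH (fun ω => (c (ρ i ω)).2.1) y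
    rw [e2, ← (hpr i).CH (fun l => (c l).2.1) z]
    exact CH_supp hr (fun _ _ => rfl) (fun ω hω => hey i ω hω)
  · intro S Y
    have e1 : CH q' (fun w i => Y i (c (ρ i w.1)).2.1) (fun w => y w.1) =
        CH r (fun ω i => Y i (c (ρ i ω)).2.1) y :=
      hfst.CH (fun ω i => Y i (c (ρ i ω)).2.1) y
    rw [e1, hind (fun i l => Y i (c l).2.1)]
    refine Finset.sum_congr rfl fun i _ => ?_
    have e2 : CH q' (fun w => Y i (c (ρ i w.1)).2.1) (fun w => y w.1) =
        CH r (fun ω => Y i (c (ρ i ω)).2.1) y := hfst.CH (fun ω => Y i (c (ρ i ω)).2.1) y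
    rw [e2, ← (hpr i).CH (fun l => Y i (c l).2.1) z]
    exact (CH_supp hr (fun _ _ => rfl) (fun ω hω => hey i ω hω))
  · have e1 := cp_indep hr X.nn hleΓ hdzΓ X.y (fun ω i => (c (ρ i ω)).2.1)
    have e2 := cp_indep hr X.nn hleΓ hdzΓ X.y (fun _ => ())
    rw [← hq'] at e1 e2
    have e3 : CH q' (fun w => X.y w.2) (fun w => ((), y w.1)) =
        CH q' (fun w => X.y w.2) (fun w => y w.1) := by
      refine CH_congr h0 ?_ ?_ ?_ ?_
      · intro w w' _ _ h; exact (Prod.ext_iff.mp h).1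
      · intro w w' _ _ h; exact (Prod.ext_iff.mp h).1
      · intro w w' _ _ h; exact (Prod.ext_iff.mp h).2
      · intro w w' _ _ h; exact Prod.ext rfl h
    rw [← e3, e2]
    exact e1
  · intro a
    have k := hsum a
    rw [← he']
    refine ⟨?_, ?_⟩
    · have e1 : CH q' (fun w => ∑ i, ∑ j, a i j • g j (c (ρ i w.1)).2.1) (fun w => y w.1) =
          CH r (fun ω => ∑ i, ∑ j, a i j • g j (c (ρ i ω)).2.1) y :=
        hfst.CH (fun ω => ∑ i, ∑ j, a i j • g j (c (ρ i ω)).2.1) y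
      have e2 := le_Fd hr X.nn hleΓ hdzΓ X.y (fun ω => ∑ i, ∑ j, a i j • g j (c (ρ i ω)).2.1)
      have e3 : CH X.p X.y f ≤ CH p₀ n₀ b₀ := X.h_le
      rw [e1]
      linarith
    · -- absorption
      have e1 : CH q' (fun w => X.y w.2) (fun w => y w.1) = CH X.p X.y f := by
        have e2 := cp_indep hr X.nn hleΓ hdzΓ X.y (fun _ => ())
        rw [← hq'] at e2
        rw [← e2]
        refine CH_congr h0 ?_ ?_ ?_ ?_
        · intro w w' _ _ h; exact (Prod.ext_iff.mp h).1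
        · intro w w' _ _ h; exact (Prod.ext_iff.mp h).1
        · intro w w' _ _ h; exact Prod.ext rfl h
        · intro w w' _ _ h; exact (Prod.ext_iff.mp h).2
      rw [e1]
      refine le_trans ?_ k
      -- put the second copy in the condition
      obtain ⟨U, hU⟩ : ∃ U : Γ → G, U = fun ω => ∑ i, ∑ j, a i j • g j (c (ρ i ω)).2.1 := ⟨_, rfl⟩
      have h02 := cp2_nn (e := eΓ) (f := f) hr X.nn
      have s1 : CH (cp2 r eΓ X.p f) (fun w => X.y w.1.2 - X.y w.2 + U w.1.1)
          (fun w => (X.y w.2, y w.1.1)) ≤ Fd r eΓ X.p f y X.y U :=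
        CH_mono_cond h02 (fun _ _ _ _ h => (Prod.ext_iff.mp h).2)
      have s2 : CH (cp2 r eΓ X.p f) (fun w => X.y w.1.2 - X.y w.2 + U w.1.1)
          (fun w => (X.y w.2, y w.1.1)) =
          CH (cp2 r eΓ X.p f) (fun w => X.y w.1.2 + U w.1.1) (fun w => (X.y w.2, y w.1.1)) := by
        refine CH_congr h02 ?_ ?_ (fun _ _ _ _ h => h) (fun _ _ _ _ h => h)
        · intro w w' _ _ h
          simp only [Prod.mk.injEq] at h
          show X.y w.1.2 + U w.1.1 = X.y w'.1.2 + U w'.1.1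
          have a1 : X.y w.1.2 + U w.1.1 = (X.y w.1.2 - X.y w.2 + U w.1.1) + X.y w.2 := by abel
          have a2 : X.y w'.1.2 + U w'.1.1 = (X.y w'.1.2 - X.y w'.2 + U w'.1.1) + X.y w'.2 := by abel
          rw [a1, a2, h.1, h.2.1]
        · intro w w' _ _ h
          simp only [Prod.mk.injEq] at h
          show X.y w.1.2 - X.y w.2 + U w.1.1 = X.y w'.1.2 - X.y w'.2 + U w'.1.1
          have a1 : X.y w.1.2 - X.y w.2 + U w.1.1 = (X.y w.1.2 + U w.1.1) - X.y w.2 := by abel
          have a2 : X.y w'.1.2 - X.y w'.2 + U w'.1.1 = (X.y w'.1.2 + U w'.1.1) - X.y w'.2 := by abel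
          rw [a1, a2, h.1, h.2.1]
      have s3 := dep_symm h02 (fun w => X.y w.1.2 + U w.1.1) (fun w => X.y w.2) (fun w => y w.1.1)
      have s4 := cp2_indep hr X.nn hleΓ hdzΓ X.y (fun w => X.y w.2 + U w.1)
      have s5 := cp2_indep hr X.nn hleΓ hdzΓ X.y (fun _ => ())
      have s6 : CH (cp2 r eΓ X.p f) (fun w => X.y w.2) (fun w => y w.1.1) =
          CH (cp2 r eΓ X.p f) (fun w => X.y w.2) (fun w => ((), y w.1.1)) := by
        refine CH_congr h02 ?_ ?_ ?_ ?_
        · intro w w' _ _ h; exact (Prod.ext_iff.mp h).1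
        · intro w w' _ _ h; exact (Prod.ext_iff.mp h).1
        · intro w w' _ _ h; exact Prod.ext rfl h
        · intro w w' _ _ h; exact (Prod.ext_iff.mp h).2
      have s7 : CH (cp2 r eΓ X.p f) (fun w => X.y w.1.2 + U w.1.1) (fun w => y w.1.1) =
          CH q' (fun w => X.y w.2 + U w.1) (fun w => y w.1) := by
        rw [hq']
        exact (cp2_push hr X.nn hleΓ).CH (fun w => X.y w.2 + U w.1) (fun w => y w.1)
      rw [hU] at s1 s2 s3 s4 s7
      linarith

end Pool.CH30
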