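import Pool.Agent.H30.CH.Side

/-!
# The distance from the group

`Y` is a law over the context `e` (the ends of a block given its start), `z` a finer context. For a
variable `U` on a space over `z`, `Fd` is the entropy of `R₁ - R₂ + U` given `z`, where `R₁`, `R₂` are
independent copies of `Y` given `z`. It is subadditive for arbitrarily dependent summands.
-/

set_option autoImplicit false
set_option linter.unusedSectionVars false
set_option linter.unusedVariables false

namespace Pool.CH30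

open Finset
open Pool.Agent.H49.Ent Pool.Agent.H32.Dense

variable {Γ Γ' Ξ : Type} [Fintype Γ] [Fintype Γ'] [Fintype Ξ] {G E K S T : Type} [AddCommGroup G]

/-- The first copy. -/
noncomputable def cp (q : Γ → ℝ) (e : Γ → E) (r : Ξ → ℝ) (f : Ξ → E) : Γ × Ξ → ℝ := glue q r e f

/-- Two copies. -/
noncomputable def cp2 (q : Γ → ℝ) (e : Γ → E) (r : Ξ → ℝ) (f : Ξ → E) : (Γ × Ξ) × Ξ → ℝ :=
  glue (glue q r e f) r (fun w => e w.1) f

/-- Three copies. -/
noncomputable def cp3 (q : Γ → ℝ) (e : Γ → E) (r : Ξ → ℝ) (f : Ξ → E) : ((Γ × Ξ) × Ξ) × Ξ → ℝ :=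
  glue (cp2 q e r f) r (fun w => e w.1.1) f

section

variable {q : Γ → ℝ} {e : Γ → E} {r : Ξ → ℝ} {f : Ξ → E} (hq : ∀ ω, 0 ≤ q ω) (hr : ∀ ω, 0 ≤ r ω)
  (hl : ∀ s, law q e s = law r f s)

include hq hr in
theorem cp_nn : ∀ w, 0 ≤ cp q e r f w := glue_nonneg hq hr

include hq hr in
theorem cp2_nn : ∀ w, 0 ≤ cp2 q e r f w := glue_nonneg (glue_nonneg hq hr) hr

include hq hr in
theorem cp3_nn : ∀ w, 0 ≤ cp3 q e r f w := glue_nonneg (cp2_nn hq hr) hr

include hq hl in
theorem cp_law (s : E) : law (cp q e r f) (fun w => e w.1) s = law r f s := by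
  rw [← hl s]
  exact law_glue_fst hq hl e s

include hq hl in
theorem cp_push : Push (cp q e r f) q Prod.fst := push_fst hq hl

include hq hr hl in
theorem cp2_push : Push (cp2 q e r f) (cp q e r f) Prod.fst :=
  push_fst (cp_nn hq hr) (cp_law hq hl)

include hq hr hl in
theorem cp2_law (s : E) : law (cp2 q e r f) (fun w => e w.1.1) s = law r f s := by
  rw [← cp_law hq hl s]
  exact (cp2_push hq hr hl).law (fun w => e w.1) s

include hq hr hl in
theorem cp3_push : Push (cp3 q e r f) (cp2 q e r f) Prod.fst :=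
  push_fst (cp2_nn hq hr) (cp2_law hq hr hl)

include hq hl in
/-- Exchange of the two copies. -/
theorem cp2_swap : Push (cp2 q e r f) (cp2 q e r f) (fun w => ((w.1.1, w.2), w.1.2)) :=
  push_exch hq hl hl

include hq hr hl in
/-- Drop the second copy. -/
theorem cp3_drop2 : Push (cp3 q e r f) (cp2 q e r f) (fun w => (w.1.1, w.2)) :=
  push_left (p₂ := r) (cp2_push hq hr hl) (fun w => e w.1) f

include hq hr hl in
/-- Drop the first copy and exchange the other two. -/
theorem cp3_drop1 : Push (cp3 q e r f) (cp2 q e r f) (fun w => ((w.1.1.1, w.2), w.1.2)) := by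
  -- exchange the first two copies, drop the second, exchange
  have h1 : Push (cp3 q e r f) (cp3 q e r f)
      (fun w => (((w.1.1.1, w.1.2), w.1.1.2), w.2)) :=
    push_left (p₂ := r) (cp2_swap hq hl) (fun w => e w.1.1) f
  exact (cp2_swap hq hl).comp ((cp3_drop2 hq hr hl).comp h1)

variable {z : Γ → K} (hz : Det q z e) (N : Ξ → G)

include hq hr hl hz in
/-- Independence of a copy. -/
theorem cp_indep (X : Γ → S) :
    CH (cp q e r f) (fun w => N w.2) (fun w => (X w.1, z w.1)) = CH r N f :=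
  CH_snd_fst hq hr hl (X := fun ω => (X ω, z ω))
    (fun _ _ a b h => hz _ _ a b (Prod.ext_iff.mp h).2) N

include hq hr hl hz in
theorem cp2_indep (X : Γ × Ξ → S) :
    CH (cp2 q e r f) (fun w => N w.2) (fun w => (X w.1, z w.1.1)) = CH r N f :=
  CH_snd_fst (cp_nn hq hr) hr (cp_law hq hl) (X := fun ω : Γ × Ξ => (X ω, z ω.1))
    (fun w w' a b h => hz _ _ ((glue_pos_iff hq hr w).mp a).1 ((glue_pos_iff hq hr w').mp b).1
      (Prod.ext_iff.mp h).2) N

include hq hr hl hz in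
theorem cp3_indep (X : (Γ × Ξ) × Ξ → S) :
    CH (cp3 q e r f) (fun w => N w.2) (fun w => (X w.1, z w.1.1.1)) = CH r N f :=
  CH_snd_fst (cp2_nn hq hr) hr (cp2_law hq hr hl) (X := fun ω : (Γ × Ξ) × Ξ => (X ω, z ω.1.1))
    (fun w w' a b h => hz _ _
      ((glue_pos_iff hq hr w.1).mp ((glue_pos_iff (glue_nonneg hq hr) hr w).mp a).1).1
      ((glue_pos_iff hq hr w'.1).mp ((glue_pos_iff (glue_nonneg hq hr) hr w').mp b).1).1
      (Prod.ext_iff.mp h).2) N

/-- The entropy of `R₁ - R₂ + U` given `z`. -/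
noncomputable def Fd (q : Γ → ℝ) (e : Γ → E) (r : Ξ → ℝ) (f : Ξ → E) (z : Γ → K) (N : Ξ → G)
    (U : Γ → G) : ℝ :=
  CH (cp2 q e r f) (fun w => N w.1.2 - N w.2 + U w.1.1) (fun w => z w.1.1)

include hq hr hl hz in
/-- Entropy of `U` is at most `Fd`. -/
theorem le_Fd (U : Γ → G) : CH q U z ≤ Fd q e r f z N U := by
  have h0 := cp2_nn (e := e) (f := f) hq hr
  unfold Fd
  -- put the two copies in the condition
  have s1 : CH (cp2 q e r f) (fun w => N w.1.2 - N w.2 + U w.1.1)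
      (fun w => ((z w.1.1, N w.1.2), N w.2)) ≤
      CH (cp2 q e r f) (fun w => N w.1.2 - N w.2 + U w.1.1) (fun w => z w.1.1) := by
    refine CH_mono_cond h0 ?_
    intro w w' _ _ h
    simp only [Prod.mk.injEq] at h
    exact h.1.1
  have s2 : CH (cp2 q e r f) (fun w => N w.1.2 - N w.2 + U w.1.1)
      (fun w => ((z w.1.1, N w.1.2), N w.2)) =
      CH (cp2 q e r f) (fun w => U w.1.1) (fun w => ((z w.1.1, N w.1.2), N w.2)) := by
    refine CH_congr h0 ?_ ?_ (fun _ _ _ _ h => h) (fun _ _ _ _ h => h)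
    · intro w w' _ _ h
      simp only [Prod.mk.injEq] at h
      obtain ⟨a, ⟨b, c⟩, d⟩ := h
      rw [c, d] at a
      exact add_right_injective _ a
    · intro w w' _ _ h
      simp only [Prod.mk.injEq] at h
      obtain ⟨a, ⟨b, c⟩, d⟩ := h
      show N w.1.2 - N w.2 + U w.1.1 = N w'.1.2 - N w'.2 + U w'.1.1
      rw [a, c, d]
  -- entropies
  have c1 := cp2_indep hq hr hl hz N (fun w => (U w.1, N w.2))
  have c2 := cp2_indep hq hr hl hz N (fun w => N w.2)
  have c3 := cp_indep hq hr hl hz N U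
  have c4 : CH (cp q e r f) (fun w => N w.2) (fun w => z w.1) = CH r N f := by
    rw [← cp_indep hq hr hl hz N (fun _ => ())]
    refine CH_congr (cp_nn hq hr) ?_ ?_ ?_ ?_
    · intro w w' _ _ h; exact (Prod.ext_iff.mp h).1
    · intro w w' _ _ h; exact (Prod.ext_iff.mp h).1
    · intro w w' _ _ h; exact Prod.ext rfl h
    · intro w w' _ _ h; exact (Prod.ext_iff.mp h).2
  have d1 : H (cp2 q e r f) (fun w => (U w.1.1, ((z w.1.1, N w.1.2), N w.2))) =
      H (cp2 q e r f) (fun w => (N w.2, ((U w.1.1, N w.1.2), z w.1.1))) := by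
    refine H_congr h0 ?_ ?_ <;>
    · intro w w' _ _ h
      simp only [Prod.mk.injEq] at h ⊢
      tauto
  have d2 : H (cp2 q e r f) (fun w => ((z w.1.1, N w.1.2), N w.2)) =
      H (cp2 q e r f) (fun w => (N w.2, (N w.1.2, z w.1.1))) := by
    refine H_congr h0 ?_ ?_ <;>
    · intro w w' _ _ h
      simp only [Prod.mk.injEq] at h ⊢
      tauto
  have d3 : H (cp2 q e r f) (fun w => ((U w.1.1, N w.1.2), z w.1.1)) =
      H (cp q e r f) (fun w => (N w.2, (U w.1, z w.1))) := by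
    rw [(cp2_push hq hr hl).H (fun w => ((U w.1, N w.2), z w.1))]
    refine H_congr (cp_nn hq hr) ?_ ?_ <;>
    · intro w w' _ _ h
      simp only [Prod.mk.injEq] at h ⊢
      tauto
  have d4 : H (cp2 q e r f) (fun w => (N w.1.2, z w.1.1)) =
      H (cp q e r f) (fun w => (N w.2, z w.1)) :=
    (cp2_push hq hr hl).H (fun w => (N w.2, z w.1))
  have d5 : H (cp q e r f) (fun w => (U w.1, z w.1)) = H q (fun ω => (U ω, z ω)) :=
    (cp_push hq hl).H (fun ω => (U ω, z ω))
  have d6 : H (cp q e r f) (fun w => z w.1) = H q z := (cp_push hq hl).H z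
  unfold CH at s1 s2 c1 c2 c3 c4 ⊢
  linarith

include hq hr hl hz in
/-- **Subadditivity** for arbitrarily dependent summands. -/
theorem Fd_add (U U' : Γ → G) :
    Fd q e r f z N (fun ω => U ω + U' ω) + CH r N f ≤ Fd q e r f z N U + Fd q e r f z N U' := by
  have h0 := cp3_nn (e := e) (f := f) hq hr
  set Q := cp3 q e r f with hQ
  -- the three differences
  have a1 : Fd q e r f z N (fun ω => U ω + U' ω) =
      CH Q (fun w => (N w.1.1.2 + U w.1.1.1) - (N w.1.2 - U' w.1.1.1)) (fun w => z w.1.1.1) := by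
    have e1 : CH Q (fun w => N w.1.1.2 - N w.1.2 + (U w.1.1.1 + U' w.1.1.1))
        (fun w => z w.1.1.1) = Fd q e r f z N (fun ω => U ω + U' ω) :=
      (cp3_push hq hr hl).CH (fun w => N w.1.2 - N w.2 + (U w.1.1 + U' w.1.1)) (fun w => z w.1.1)
    rw [← e1]
    exact CH_supp h0 (fun w _ => by abel) (fun _ _ => rfl)
  have a2 : Fd q e r f z N U =
      CH Q (fun w => (N w.1.1.2 + U w.1.1.1) - N w.2) (fun w => z w.1.1.1) := by
    have e1 : CH Q (fun w => N w.1.1.2 - N w.2 + U w.1.1.1) (fun w => z w.1.1.1) =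
        Fd q e r f z N U :=
      (cp3_drop2 hq hr hl).CH (fun w => N w.1.2 - N w.2 + U w.1.1) (fun w => z w.1.1)
    rw [← e1]
    exact CH_supp h0 (fun w _ => by abel) (fun _ _ => rfl)
  have a3 : Fd q e r f z N U' =
      CH Q (fun w => N w.2 - (N w.1.2 - U' w.1.1.1)) (fun w => z w.1.1.1) := by
    have e1 : CH Q (fun w => N w.2 - N w.1.2 + U' w.1.1.1) (fun w => z w.1.1.1) =
        Fd q e r f z N U' :=
      (cp3_drop1 hq hr hl).CH (fun w => N w.1.2 - N w.2 + U' w.1.1) (fun w => z w.1.1)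
    rw [← e1]
    exact CH_supp h0 (fun w _ => by abel) (fun _ _ => rfl)
  -- submodularity
  obtain ⟨P, hP⟩ : ∃ P : ((Γ × Ξ) × Ξ) × Ξ → G, P = fun w => N w.1.1.2 + U w.1.1.1 := ⟨_, rfl⟩
  obtain ⟨P', hP'⟩ : ∃ P' : ((Γ × Ξ) × Ξ) × Ξ → G, P' = fun w => N w.1.2 - U' w.1.1.1 := ⟨_, rfl⟩
  obtain ⟨R, hR⟩ : ∃ R : ((Γ × Ξ) × Ξ) × Ξ → G, R = fun w => N w.2 := ⟨_, rfl⟩
  obtain ⟨zz, hzz⟩ : ∃ zz : ((Γ × Ξ) × Ξ) × Ξ → K, zz = fun w => z w.1.1.1 := ⟨_, rfl⟩
  have a1' : Fd q e r f z N (fun ω => U ω + U' ω) = CH Q (fun w => P w - P' w) zz := by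
    rw [a1, hP, hP', hzz]
  have a2' : Fd q e r f z N U = CH Q (fun w => P w - R w) zz := by rw [a2, hP, hR, hzz]
  have a3' : Fd q e r f z N U' = CH Q (fun w => R w - P' w) zz := by rw [a3, hP', hR, hzz]
  have s1 := submod h0 (X := fun w => (P w - R w, (R w - P' w, zz w)))
    (Y := fun w => (P w, (P' w, zz w))) (Z := fun w => (P w - P' w, zz w))
    (W := fun w => (R w, ((P w, P' w), zz w)))
    (by
      intro w w' _ _ h
      simp only [Prod.mk.injEq] at h ⊢
      obtain ⟨a, b, c⟩ := h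
      refine ⟨?_, c⟩
      rw [← sub_add_sub_cancel (P w) (R w) (P' w), a, b, sub_add_sub_cancel])
    (by
      intro w w' _ _ h
      simp only [Prod.mk.injEq] at h ⊢
      rw [h.1, h.2.1]; exact ⟨rfl, h.2.2⟩)
    (by
      intro w w' _ _ h
      simp only [Prod.mk.injEq] at h ⊢
      obtain ⟨⟨a, b, c⟩, d, i, j⟩ := h
      refine ⟨?_, ⟨d, i⟩, c⟩
      rw [d] at a
      exact sub_right_injective a)
  have s2 := sub3 h0 (fun w => P w - R w) (fun w => R w - P' w) zz
  have s3 : H Q (fun w => (R w, ((P w, P' w), zz w))) =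
      H Q (fun w => ((P w, P' w), zz w)) + CH r N f := by
    have := cp3_indep hq hr hl hz N
      (fun w => (N w.1.2 + U w.1.1, N w.2 - U' w.1.1))
    rw [hR, hP, hP', hzz]
    unfold CH at this ⊢
    linarith
  have s4 : H Q (fun w => ((P w, P' w), zz w)) = H Q (fun w => (P w, (P' w, zz w))) := by
    refine H_congr h0 ?_ ?_ <;>
    · intro w w' _ _ h
      simp only [Prod.mk.injEq] at h ⊢
      tauto
  rw [a1', a2', a3']
  unfold CH at s3 ⊢
  linarith

include hq hr hl in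
/-- `Fd` is symmetric. -/
theorem Fd_neg (U : Γ → G) : Fd q e r f z N (fun ω => -U ω) = Fd q e r f z N U := by
  have h0 := cp2_nn (e := e) (f := f) hq hr
  have e1 : CH (cp2 q e r f) (fun w => N w.2 - N w.1.2 + U w.1.1) (fun w => z w.1.1) =
      Fd q e r f z N U :=
    (cp2_swap hq hl).CH (fun w => N w.1.2 - N w.2 + U w.1.1) (fun w => z w.1.1)
  rw [← e1]
  unfold Fd
  refine CH_congr h0 ?_ ?_ (fun _ _ _ _ h => h) (fun _ _ _ _ h => h)
  · intro w w' _ _ h
    have h1 := (Prod.ext_iff.mp h).1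
    simp only at h1
    show N w.2 - N w.1.2 + U w.1.1 = N w'.2 - N w'.1.2 + U w'.1.1
    have e2 : N w.2 - N w.1.2 + U w.1.1 = -(N w.1.2 - N w.2 + -U w.1.1) := by abel
    have e3 : N w'.2 - N w'.1.2 + U w'.1.1 = -(N w'.1.2 - N w'.2 + -U w'.1.1) := by abel
    rw [e2, e3, h1]
  · intro w w' _ _ h
    have h1 := (Prod.ext_iff.mp h).1
    simp only at h1
    show N w.1.2 - N w.2 + -U w.1.1 = N w'.1.2 - N w'.2 + -U w'.1.1
    have e2 : N w.1.2 - N w.2 + -U w.1.1 = -(N w.2 - N w.1.2 + U w.1.1) := by abel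
    have e3 : N w'.1.2 - N w'.2 + -U w'.1.1 = -(N w'.2 - N w'.1.2 + U w'.1.1) := by abel
    rw [e2, e3, h1]

/-- `Fd` depends only on the law. -/
theorem Fd_push {q' : Γ' → ℝ} {ρ : Γ' → Γ} (h : Push q' q ρ) (U : Γ → G) :
    Fd q' (fun ω => e (ρ ω)) r f (fun ω => z (ρ ω)) N (fun ω => U (ρ ω)) = Fd q e r f z N U := by
  have h1 : Push (glue q' r (fun ω => e (ρ ω)) f) (glue q r e f) (fun w => (ρ w.1, w.2)) :=
    push_left (p₂ := r) h e f
  have h2 : Push (cp2 q' (fun ω => e (ρ ω)) r f) (cp2 q e r f)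
      (fun w => ((ρ w.1.1, w.1.2), w.2)) :=
    push_left (p₂ := r) h1 (fun w => e w.1) f
  exact h2.CH (fun w => N w.1.2 - N w.2 + U w.1.1) (fun w => z w.1.1)

/-- Only the values on the support matter. -/
theorem Fd_supp {e' : Γ → E} {z' : Γ → K} {U U' : Γ → G} (hq : ∀ ω, 0 ≤ q ω) (hr : ∀ ω, 0 ≤ r ω)
    (h1 : ∀ ω, 0 < q ω → e ω = e' ω)
    (h2 : ∀ ω, 0 < q ω → z ω = z' ω) (h3 : ∀ ω, 0 < q ω → U ω = U' ω) :
    Fd q e r f z N U = Fd q e' r f z' N U' := by
  have g1 : glue q r e f = glue q r e' f := glue_congr hq h1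
  have g2 : cp2 q e r f = cp2 q e' r f := by
    unfold cp2
    rw [g1]
    exact glue_congr (glue_nonneg hq hr)
      (fun w hw => h1 w.1 ((glue_pos_iff hq hr w).mp hw).1)
  unfold Fd
  rw [g2]
  refine CH_supp (cp2_nn hq hr) (fun w hw => ?_) (fun w hw => ?_)
  · have := ((glue_pos_iff hq hr w.1).mp ((glue_pos_iff (glue_nonneg hq hr) hr w).mp hw).1).1
    rw [h3 _ this]
  · have := ((glue_pos_iff hq hr w.1).mp ((glue_pos_iff (glue_nonneg hq hr) hr w).mp hw).1).1
    rw [h2 _ this]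

include hq hr hl hz in
/-- The three term inequality. -/
theorem Fd_kv (U : Γ → G) :
    Fd q e r f z N U + CH r N f ≤ CH (cp2 q e r f) (fun w => N w.1.2 - N w.2) (fun w => z w.1.1) +
      CH (cp q e r f) (fun w => N w.2 + U w.1) (fun w => z w.1) := by
  have h0 := cp2_nn (e := e) (f := f) hq hr
  set Q := cp2 q e r f with hQ
  have s1 := submod h0 (X := fun w => (N w.2, (N w.1.2 + U w.1.1, z w.1.1)))
    (Y := fun w => (N w.1.2 - N w.2, (U w.1.1, z w.1.1)))
    (Z := fun w => (N w.1.2 - N w.2 + U w.1.1, z w.1.1))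
    (W := fun w => (N w.2, ((U w.1.1, N w.1.2), z w.1.1)))
    (by
      intro w w' _ _ h
      simp only [Prod.mk.injEq] at h ⊢
      obtain ⟨a, b, c⟩ := h
      refine ⟨?_, c⟩
      have e2 : N w.1.2 - N w.2 + U w.1.1 = (N w.1.2 + U w.1.1) - N w.2 := by abel
      have e3 : N w'.1.2 - N w'.2 + U w'.1.1 = (N w'.1.2 + U w'.1.1) - N w'.2 := by abel
      rw [e2, e3, a, b])
    (by
      intro w w' _ _ h
      simp only [Prod.mk.injEq] at h ⊢
      rw [h.1, h.2.1]; exact ⟨rfl, h.2.2⟩)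
    (by
      intro w w' _ _ h
      simp only [Prod.mk.injEq] at h ⊢
      obtain ⟨⟨a, b, c⟩, d, i, j⟩ := h
      refine ⟨a, ⟨i, ?_⟩, c⟩
      rw [i] at b
      exact add_left_injective _ b)
  have s2 := sub3 h0 (fun w => N w.2) (fun w => N w.1.2 + U w.1.1) (fun w => z w.1.1)
  have s3 := sub3 h0 (fun w => N w.1.2 - N w.2) (fun w => U w.1.1) (fun w => z w.1.1)
  have c1 := cp2_indep hq hr hl hz N (fun w => (U w.1, N w.2))
  have c2 := cp_indep hq hr hl hz N U
  have c4 := cp2_indep hq hr hl hz N (fun w => ())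
  have c5 : H Q (fun w => (N w.2, ((), z w.1.1))) = H Q (fun w => (N w.2, z w.1.1)) := by
    refine H_congr h0 ?_ ?_ <;>
    · intro w w' _ _ h
      simp only [Prod.mk.injEq] at h ⊢
      tauto
  have c6 : H Q (fun w => ((), z w.1.1)) = H Q (fun w => z w.1.1) := by
    refine H_congr h0 ?_ ?_
    · intro w w' _ _ h
      simp only [Prod.mk.injEq]
      exact ⟨trivial, h⟩
    · intro w w' _ _ h
      exact (Prod.ext_iff.mp h).2
  have d3 : H Q (fun w => ((U w.1.1, N w.1.2), z w.1.1)) =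
      H (cp q e r f) (fun w => (N w.2, (U w.1, z w.1))) := by
    rw [hQ, (cp2_push hq hr hl).H (fun w => ((U w.1, N w.2), z w.1))]
    refine H_congr (cp_nn hq hr) ?_ ?_ <;>
    · intro w w' _ _ h
      simp only [Prod.mk.injEq] at h ⊢
      tauto
  have d5 : H (cp q e r f) (fun w => (U w.1, z w.1)) = H Q (fun w => (U w.1.1, z w.1.1)) :=
    ((cp2_push hq hr hl).H (fun ω => (U ω.1, z ω.1))).symm
  have d6 : H Q (fun w => (N w.1.2 + U w.1.1, z w.1.1)) =
      H (cp q e r f) (fun w => (N w.2 + U w.1, z w.1)) :=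
    (cp2_push hq hr hl).H (fun w => (N w.2 + U w.1, z w.1))
  have d7 : H Q (fun w => z w.1.1) = H (cp q e r f) (fun w => z w.1) :=
    (cp2_push hq hr hl).H (fun w => z w.1)
  unfold Fd
  rw [← hQ] at c1 c4 ⊢
  unfold CH at c1 c2 c4 ⊢
  linarith

include hq hr hl hz in
/-- Multiples and sums. -/
theorem Fd_add_le {U U' : Γ → G} {t : ℝ} (h : Fd q e r f z N U' ≤ CH r N f + t) :
    Fd q e r f z N (fun ω => U ω + U' ω) ≤ Fd q e r f z N U + t := by
  have := Fd_add hq hr hl hz N U U'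
  linarith

include hq hr hl hz in
theorem Fd_add_zsmul {U U' : Γ → G} {t : ℝ} (h : Fd q e r f z N U' ≤ CH r N f + t) (a : ℤ) :
    Fd q e r f z N (fun ω => U ω + a • U' ω) ≤ Fd q e r f z N U + |(a : ℝ)| * t := by
  have hn : Fd q e r f z N (fun ω => -U' ω) ≤ CH r N f + t := by
    rw [Fd_neg hq hr hl]; exact h
  have key : ∀ (V : Γ → G), Fd q e r f z N V ≤ CH r N f + t → ∀ n : ℕ,
      Fd q e r f z N (fun ω => U ω + n • V ω) ≤ Fd q e r f z N U + n * t := by
    intro V hV n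
    induction n with
    | zero =>
      have : (fun ω => U ω + 0 • V ω) = U := by funext ω; simp
      rw [this]; simp
    | succ n ih =>
      have : (fun ω => U ω + (n + 1) • V ω) = fun ω => (U ω + n • V ω) + V ω := by
        funext ω; rw [succ_nsmul]; abel
      rw [this]
      refine (Fd_add_le hq hr hl hz N hV).trans ?_
      push_cast
      linarith
  rcases le_total 0 a with ha | ha
  · obtain ⟨n, rfl⟩ := Int.eq_ofNat_of_zero_le ha
    have := key U' h n
    have e1 : (fun ω => U ω + (n : ℤ) • U' ω) = fun ω => U ω + n • U' ω := by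
      funext ω; rw [natCast_zsmul]
    rw [e1]
    refine this.trans (le_of_eq ?_)
    push_cast
    rw [abs_of_nonneg (by positivity)]
  · obtain ⟨n, hn2⟩ := Int.eq_ofNat_of_zero_le (neg_nonneg.mpr ha)
    have ha' : a = -(n : ℤ) := by omega
    subst ha'
    have := key (fun ω => -U' ω) hn n
    have e1 : (fun ω => U ω + (-(n : ℤ)) • U' ω) = fun ω => U ω + n • -U' ω := by
      funext ω; rw [neg_smul, natCast_zsmul, smul_neg]
    rw [e1]
    refine this.trans (le_of_eq ?_)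
    push_cast
    rw [abs_neg, abs_of_nonneg (by positivity)]

end

end Pool.CH30
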