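import Pool.Agent.H32.Dense.EntX

/-!
# Marginals of glued laws

`Push q p π`: the map `π` carries the law `q` to the law `p`. Entropies of functions of `π` do not
see the difference. Glued laws are functorial, symmetric, and commute with each other.
-/

set_option autoImplicit false
set_option linter.unusedSectionVars false
set_option linter.unusedVariables false

namespace Pool.CH30

open Finset
open Pool.Agent.H49.Ent Pool.Agent.H32.Dense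

variable {Ω Ω' Ω₁ Ω₂ Ω₃ : Type} [Fintype Ω] [Fintype Ω'] [Fintype Ω₁] [Fintype Ω₂] [Fintype Ω₃]
  {S T U V : Type}

open Classical in
/-- `π` carries `q` to `p`. -/
def Push (q : Ω' → ℝ) (p : Ω → ℝ) (π : Ω' → Ω) : Prop :=
  ∀ ω, (∑ ω', if π ω' = ω then q ω' else 0) = p ω

theorem Push.H {q : Ω' → ℝ} {p : Ω → ℝ} {π : Ω' → Ω} (h : Push q p π) (X : Ω → S) :
    H q (fun ω' => X (π ω')) = H p X := H_eq_of_marginal π h X

theorem Push.CH {q : Ω' → ℝ} {p : Ω → ℝ} {π : Ω' → Ω} (h : Push q p π) (X : Ω → S) (Z : Ω → T) :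
    CH q (fun ω' => X (π ω')) (fun ω' => Z (π ω')) = CH p X Z := by
  unfold Pool.Agent.H49.Ent.CH
  rw [h.H Z, ← h.H (fun ω => (X ω, Z ω))]

theorem Push.law {q : Ω' → ℝ} {p : Ω → ℝ} {π : Ω' → Ω} (h : Push q p π) (X : Ω → S) (x : S) :
    law q (fun ω' => X (π ω')) x = law p X x := by
  classical
  unfold Pool.Agent.H49.Ent.law
  have e : ∀ ω, (if X ω = x then p ω else 0) =
      ∑ ω', (if π ω' = ω then (if X ω = x then q ω' else 0) else 0) := by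
    intro ω
    rw [← h ω]
    by_cases hx : X ω = x <;> simp [hx]
  rw [Finset.sum_congr rfl (fun ω _ => e ω), Finset.sum_comm]
  refine Finset.sum_congr rfl (fun ω' _ => ?_)
  rw [Finset.sum_ite_eq (Finset.univ) (π ω')]
  simp

theorem Push.sum {q : Ω' → ℝ} {p : Ω → ℝ} {π : Ω' → Ω} (h : Push q p π) :
    ∑ ω', q ω' = ∑ ω, p ω := by
  have := h.law (fun _ => ()) ()
  unfold Pool.Agent.H49.Ent.law at this
  simpa using this

theorem Push.pos {q : Ω' → ℝ} {p : Ω → ℝ} {π : Ω' → Ω} (h : Push q p π) (hq : ∀ ω, 0 ≤ q ω)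
    {ω : Ω'} (hω : 0 < q ω) : 0 < p (π ω) := by
  classical
  rw [← h (π ω)]
  refine lt_of_lt_of_le hω ?_
  have := Finset.single_le_sum (f := fun ω' => if π ω' = π ω then q ω' else 0)
    (fun ω' _ => by split_ifs; exacts [hq ω', le_rfl]) (Finset.mem_univ ω)
  simpa using this

theorem Push.comp {q : Ω' → ℝ} {p : Ω → ℝ} {π : Ω' → Ω} (h : Push q p π) {r : Ω₁ → ℝ}
    {ρ : Ω₁ → Ω'} (h' : Push r q ρ) : Push r p (fun ω => π (ρ ω)) := by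
  classical
  intro ω
  rw [← h ω]
  have e : ∀ ω', (if π ω' = ω then q ω' else 0) =
      ∑ ω₁, (if ρ ω₁ = ω' then (if π ω' = ω then r ω₁ else 0) else 0) := by
    intro ω'
    rw [← h' ω']
    by_cases hx : π ω' = ω <;> simp [hx]
  rw [Finset.sum_congr rfl (fun ω _ => e ω), Finset.sum_comm]
  refine Finset.sum_congr rfl (fun ω₁ _ => ?_)
  rw [Finset.sum_ite_eq (Finset.univ) (ρ ω₁)]
  simp

theorem Push.id (p : Ω → ℝ) : Push p p (fun ω => ω) := by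
  classical
  intro ω
  rw [Finset.sum_ite_eq' Finset.univ ω]
  simp

theorem H_supp {p : Ω → ℝ} (hp : ∀ ω, 0 ≤ p ω) {X X' : Ω → S} (h : ∀ ω, 0 < p ω → X ω = X' ω) :
    H p X = H p X' :=
  H_congr hp (fun ω ω' a b e => by rw [h ω a, h ω' b]; exact e)
    (fun ω ω' a b e => by rw [← h ω a, ← h ω' b]; exact e)

theorem law_supp {p : Ω → ℝ} (hp : ∀ ω, 0 ≤ p ω) {X X' : Ω → S} (h : ∀ ω, 0 < p ω → X ω = X' ω)
    (x : S) : law p X x = law p X' x := by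
  classical
  unfold law
  refine Finset.sum_congr rfl fun ω _ => ?_
  rcases (hp ω).eq_or_lt with h0 | h0
  · simp [← h0]
  · rw [h ω h0]

theorem CH_supp {p : Ω → ℝ} (hp : ∀ ω, 0 ≤ p ω) {X X' : Ω → S} {Z Z' : Ω → T}
    (h : ∀ ω, 0 < p ω → X ω = X' ω) (h' : ∀ ω, 0 < p ω → Z ω = Z' ω) :
    CH p X Z = CH p X' Z' := by
  unfold CH
  rw [H_supp hp h', H_supp hp (X' := fun ω => (X' ω, Z' ω)) (fun ω a => by rw [h ω a, h' ω a])]

/-- The entropy depends only on the law. -/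
theorem H_law {q : Ω' → ℝ} {p : Ω → ℝ} {X : Ω' → S} {Y : Ω → S}
    (h : ∀ x, law q X x = law p Y x) : H q X = H p Y := by
  classical
  rw [H_eq_sum_of_subset q X (F := univ.image X ∪ univ.image Y) subset_union_left,
    H_eq_sum_of_subset p Y (F := univ.image X ∪ univ.image Y) subset_union_right]
  exact Finset.sum_congr rfl fun x _ => by rw [h x]

section glue

variable {p₁ : Ω₁ → ℝ} {p₂ : Ω₂ → ℝ} {p₃ : Ω₃ → ℝ}

theorem glue_eq {Z₁ : Ω₁ → T} {Z₂ : Ω₂ → T} {w : Ω₁ × Ω₂} (h : 0 < glue p₁ p₂ Z₁ Z₂ w)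
    (h₁ : ∀ ω, 0 ≤ p₁ ω) (h₂ : ∀ ω, 0 ≤ p₂ ω) : Z₁ w.1 = Z₂ w.2 :=
  ((glue_pos_iff h₁ h₂ w).mp h).2.2

theorem push_fst (h₁ : ∀ ω, 0 ≤ p₁ ω) {Z₁ : Ω₁ → T} {Z₂ : Ω₂ → T}
    (hZ : ∀ z, law p₁ Z₁ z = law p₂ Z₂ z) : Push (glue p₁ p₂ Z₁ Z₂) p₁ Prod.fst := by
  classical
  intro ω
  rw [Fintype.sum_prod_type, Finset.sum_eq_single ω]
  · simpa using glue_fst h₁ hZ ω
  · intro b _ hb; simp [hb]
  · intro h; exact absurd (Finset.mem_univ _) h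

theorem push_snd (h₂ : ∀ ω, 0 ≤ p₂ ω) {Z₁ : Ω₁ → T} {Z₂ : Ω₂ → T}
    (hZ : ∀ z, law p₁ Z₁ z = law p₂ Z₂ z) : Push (glue p₁ p₂ Z₁ Z₂) p₂ Prod.snd := by
  classical
  intro ω
  rw [Fintype.sum_prod_type, Finset.sum_comm, Finset.sum_eq_single ω]
  · simpa using glue_snd h₂ hZ ω
  · intro b _ hb; simp [hb]
  · intro h; exact absurd (Finset.mem_univ _) h

/-- Gluing is functorial in the first space. -/
theorem push_left {q : Ω' → ℝ} {π : Ω' → Ω₁} (h : Push q p₁ π) (Z₁ : Ω₁ → T) (Z₂ : Ω₂ → T) :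
    Push (glue q p₂ (fun ω => Z₁ (π ω)) Z₂) (glue p₁ p₂ Z₁ Z₂) (fun w => (π w.1, w.2)) := by
  classical
  rintro ⟨ω₁, ω₂⟩
  have hl := fun x => h.law Z₁ x
  have e : ∀ w : Ω' × Ω₂, (@ite ℝ ((π w.1, w.2) = (ω₁, ω₂)) (Classical.propDecidable _)
      (glue q p₂ (fun ω => Z₁ (π ω)) Z₂ w) 0) =
      (if w.2 = ω₂ then (if π w.1 = ω₁ then
        (if Z₁ ω₁ = Z₂ ω₂ then q w.1 * p₂ ω₂ / law p₁ Z₁ (Z₁ ω₁) else 0) else 0) else 0) := by
    rintro ⟨a, b⟩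
    by_cases hb : b = ω₂
    · by_cases ha : π a = ω₁
      · subst hb
        rw [if_pos (by simp only [ha]), if_pos rfl, if_pos ha]
        unfold glue
        simp only [hl, ha]
      · rw [if_neg (fun hh => ha (Prod.ext_iff.mp hh).1), if_neg ha]; simp
    · rw [if_neg (fun hh => hb (Prod.ext_iff.mp hh).2), if_neg hb]
  refine (Finset.sum_congr rfl (fun w _ => e w)).trans ?_
  rw [Fintype.sum_prod_type]
  simp only [Finset.sum_ite_eq', Finset.mem_univ, if_true]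
  have e2 : ∀ a : Ω', (if π a = ω₁ then
        (if Z₁ ω₁ = Z₂ ω₂ then q a * p₂ ω₂ / law p₁ Z₁ (Z₁ ω₁) else 0) else 0) =
      (if π a = ω₁ then q a else 0) * (if Z₁ ω₁ = Z₂ ω₂ then p₂ ω₂ / law p₁ Z₁ (Z₁ ω₁) else 0) := by
    intro a
    split_ifs <;> ring
  rw [Finset.sum_congr rfl (fun a _ => e2 a), ← Finset.sum_mul, h ω₁]
  unfold glue
  simp only
  split_ifs <;> ring

/-- Gluing is symmetric. -/
theorem push_comm {Z₁ : Ω₁ → T} {Z₂ : Ω₂ → T} (hZ : ∀ z, law p₁ Z₁ z = law p₂ Z₂ z) :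
    Push (glue p₁ p₂ Z₁ Z₂) (glue p₂ p₁ Z₂ Z₁) Prod.swap := by
  classical
  rintro ⟨ω₂, ω₁⟩
  rw [Finset.sum_eq_single (ω₁, ω₂)]
  · rw [if_pos (by rfl)]
    unfold glue
    simp only
    by_cases h : Z₁ ω₁ = Z₂ ω₂
    · rw [if_pos h, if_pos h.symm, hZ, h]
      ring
    · rw [if_neg h, if_neg (fun hh => h hh.symm)]
  · rintro ⟨a, b⟩ _ hb
    rw [if_neg]
    intro hh
    apply hb
    simp only [Prod.swap, Prod.mk.injEq] at hh
    rw [hh.1, hh.2]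
  · intro h; exact absurd (Finset.mem_univ _) h

/-- Functorial in the second space. -/
theorem push_right (h₁ : ∀ ω, 0 ≤ p₁ ω) {q : Ω' → ℝ} {π : Ω' → Ω₂} (h : Push q p₂ π) {Z₁ : Ω₁ → T}
    {Z₂ : Ω₂ → T} (hZ : ∀ z, law p₁ Z₁ z = law p₂ Z₂ z) :
    Push (glue p₁ q Z₁ (fun ω => Z₂ (π ω))) (glue p₁ p₂ Z₁ Z₂) (fun w => (w.1, π w.2)) := by
  have hZ' : ∀ z, law p₁ Z₁ z = law q (fun ω => Z₂ (π ω)) z := fun z => by rw [hZ, h.law]
  exact (push_comm (fun z => (hZ z).symm)).comp ((push_left h Z₂ Z₁).comp (push_comm hZ'))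

/-- Two glueings over the same variable commute. -/
theorem push_exch (h₁ : ∀ ω, 0 ≤ p₁ ω) {Z₁ : Ω₁ → T} {Z₂ : Ω₂ → T} {Y₁ : Ω₁ → U} {Y₃ : Ω₃ → U}
    (hZ : ∀ z, law p₁ Z₁ z = law p₂ Z₂ z) (hY : ∀ z, law p₁ Y₁ z = law p₃ Y₃ z) :
    Push (glue (glue p₁ p₂ Z₁ Z₂) p₃ (fun w => Y₁ w.1) Y₃)
      (glue (glue p₁ p₃ Y₁ Y₃) p₂ (fun w => Z₁ w.1) Z₂) (fun w => ((w.1.1, w.2), w.1.2)) := by
  classical
  rintro ⟨⟨ω₁, ω₃⟩, ω₂⟩
  rw [Finset.sum_eq_single ((ω₁, ω₂), ω₃)]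
  · rw [if_pos rfl]
    have e1 : law (glue p₁ p₂ Z₁ Z₂) (fun w => Y₁ w.1) (Y₁ ω₁) = law p₁ Y₁ (Y₁ ω₁) :=
      law_glue_fst h₁ hZ Y₁ _
    have e2 : law (glue p₁ p₃ Y₁ Y₃) (fun w => Z₁ w.1) (Z₁ ω₁) = law p₁ Z₁ (Z₁ ω₁) :=
      law_glue_fst h₁ hY Z₁ _
    rw [glue, glue, glue, glue]
    simp only [e1, e2]
    split_ifs <;> ring
  · rintro ⟨⟨a, b⟩, c⟩ _ hb
    rw [if_neg]
    intro hh
    apply hb
    simp only [Prod.mk.injEq] at hh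
    obtain ⟨⟨x, y⟩, z⟩ := hh
    rw [x, y, z]
  · intro h; exact absurd (Finset.mem_univ _) h

end glue

end Pool.CH30
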