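import Pool.Agent.H30.CH.Blk

/-!
# The side information

Given a block `X` the label of `V` is drawn after the end of `X`. The side information consists of
the start of the block and of one point `n + g(V)` for every `g` of a list, where the `n` are drawn
anew given the start and `V`.
-/

set_option autoImplicit false
set_option linter.unusedSectionVars false
set_option linter.unusedVariables false

namespace Pool.CH30

open Finset
open Pool.Agent.H49.Ent Pool.Agent.H32.Dense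

section indep

variable {Ω₁ Ω₂ : Type} [Fintype Ω₁] [Fintype Ω₂] {S S' T U U' : Type} {p₁ : Ω₁ → ℝ} {p₂ : Ω₂ → ℝ}
  {Z₁ : Ω₁ → T} {Z₂ : Ω₂ → T}

theorem CH_snd_pair (h₁ : ∀ ω, 0 ≤ p₁ ω) (h₂ : ∀ ω, 0 ≤ p₂ ω)
    (hZ : ∀ z, law p₁ Z₁ z = law p₂ Z₂ z) {X : Ω₁ → S} (hX : Det p₁ X Z₁) (Y : Ω₂ → U)
    {Y' : Ω₂ → U'} (hY : Det p₂ Y' Z₂) :
    CH (glue p₁ p₂ Z₁ Z₂) (fun w => Y w.2) (fun w => (X w.1, Y' w.2)) = CH p₂ Y Y' := by
  have h0 : ∀ w, 0 ≤ glue p₁ p₂ Z₁ Z₂ w := glue_nonneg h₁ h₂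
  have e1 := H_glue_pair h₁ h₂ hZ (X := X) (Y := fun ω => (Y ω, Y' ω)) hX
    (fun _ _ a b h => hY _ _ a b (Prod.ext_iff.mp h).2)
  have e2 := H_glue_pair h₁ h₂ hZ (X := X) (Y := Y') hX hY
  have e3 : H (glue p₁ p₂ Z₁ Z₂) (fun w => (Y w.2, (X w.1, Y' w.2))) =
      H (glue p₁ p₂ Z₁ Z₂) (fun w => (X w.1, (Y w.2, Y' w.2))) := by
    refine H_congr h0 ?_ ?_ <;>
    · intro w w' _ _ h
      simp only [Prod.mk.injEq] at h ⊢
      tauto
  unfold CH
  rw [e3, e1, e2]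
  ring

theorem CH_fst_pair (h₁ : ∀ ω, 0 ≤ p₁ ω) (h₂ : ∀ ω, 0 ≤ p₂ ω)
    (hZ : ∀ z, law p₁ Z₁ z = law p₂ Z₂ z) (X : Ω₁ → S) {X' : Ω₁ → S'} (hX : Det p₁ X' Z₁)
    {Y : Ω₂ → U} (hY : Det p₂ Y Z₂) :
    CH (glue p₁ p₂ Z₁ Z₂) (fun w => X w.1) (fun w => (X' w.1, Y w.2)) = CH p₁ X X' := by
  have h0 : ∀ w, 0 ≤ glue p₁ p₂ Z₁ Z₂ w := glue_nonneg h₁ h₂
  have e1 := H_glue_pair h₁ h₂ hZ (X := fun ω => (X ω, X' ω)) (Y := Y)
    (fun _ _ a b h => hX _ _ a b (Prod.ext_iff.mp h).2) hY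
  have e2 := H_glue_pair h₁ h₂ hZ (X := X') (Y := Y) hX hY
  have e3 : H (glue p₁ p₂ Z₁ Z₂) (fun w => (X w.1, (X' w.1, Y w.2))) =
      H (glue p₁ p₂ Z₁ Z₂) (fun w => ((X w.1, X' w.1), Y w.2)) := by
    refine H_congr h0 ?_ ?_ <;>
    · intro w w' _ _ h
      simp only [Prod.mk.injEq] at h ⊢
      tauto
  unfold CH
  rw [e3, e1, e2]
  ring

/-- Only the values on the support matter. -/
theorem glue_congr {Z₁' : Ω₁ → T} (h₁ : ∀ ω, 0 ≤ p₁ ω) (h : ∀ ω, 0 < p₁ ω → Z₁ ω = Z₁' ω) :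
    glue p₁ p₂ Z₁ Z₂ = glue p₁ p₂ Z₁' Z₂ := by
  classical
  funext w
  have hl : ∀ z, law p₁ Z₁ z = law p₁ Z₁' z := law_supp h₁ h
  unfold glue
  rcases (h₁ w.1).eq_or_lt with h0 | h0
  · simp [← h0]
  · rw [h _ h0, hl]

/-- Symmetry of the dependence. -/
theorem dep_symm {Ω : Type} [Fintype Ω] {A C B : Type} {p : Ω → ℝ} (hp : ∀ ω, 0 ≤ p ω)
    (a : Ω → A) (c : Ω → C) (b : Ω → B) :
    CH p a b - CH p a (fun ω => (c ω, b ω)) = CH p c b - CH p c (fun ω => (a ω, b ω)) := by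
  have e : H p (fun ω => (a ω, (c ω, b ω))) = H p (fun ω => (c ω, (a ω, b ω))) := by
    refine H_congr hp ?_ ?_ <;>
    · intro w w' _ _ h
      simp only [Prod.mk.injEq] at h ⊢
      tauto
  unfold CH
  linarith

end indep

variable {Ω₀ : Type} [Fintype Ω₀] {G B A : Type} [AddCommGroup G]
  {p₀ : Ω₀ → ℝ} {b₀ : Ω₀ → B} {n₀ : Ω₀ → G}

namespace Blk

section W

variable (hp : ∀ ω, 0 ≤ p₀ ω) (V : Ω₀ → A) (X : Blk p₀ b₀ n₀)

/-- The label is drawn after the end of the block. -/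
noncomputable def W : X.Ω × Ω₀ → ℝ :=
  glue X.p p₀ (fun ω => (X.y ω, X.b ω)) (fun ω => (n₀ ω, b₀ ω))

include hp in
theorem W_nn : ∀ w, 0 ≤ X.W w := glue_nonneg X.nn hp

include hp in
theorem W_eq {w : X.Ω × Ω₀} (hw : 0 < X.W w) : X.y w.1 = n₀ w.2 ∧ X.b w.1 = b₀ w.2 := by
  have := glue_eq hw X.nn hp
  simpa only [Prod.mk.injEq] using this

include hp in
theorem W_snd : Push X.W p₀ Prod.snd := push_snd hp X.ly

theorem W_fst : Push X.W X.p Prod.fst := push_fst X.nn X.ly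

variable {d : ℝ}

include hp in
/-- The label is almost independent of the start. -/
theorem W_label (h1 : CH p₀ n₀ b₀ - CH p₀ n₀ (fun ω => (V ω, b₀ ω)) ≤ d) :
    CH p₀ V b₀ - d ≤ CH X.W (fun w => V w.2) (fun w => (X.x w.1, X.b w.1)) := by
  have h0 := X.W_nn hp
  have s1 : CH X.W (fun w => V w.2) (fun w => (X.x w.1, (X.y w.1, X.b w.1))) ≤
      CH X.W (fun w => V w.2) (fun w => (X.x w.1, X.b w.1)) := by
    refine CH_mono_cond h0 ?_
    intro w w' _ _ h
    simp only [Prod.mk.injEq] at h ⊢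
    tauto
  have s2 : CH X.W (fun w => V w.2) (fun w => (X.x w.1, (X.y w.1, X.b w.1))) =
      CH p₀ V (fun ω => (n₀ ω, b₀ ω)) :=
    CH_snd_fst (T := G × B) X.nn hp X.ly (X := fun ω => (X.x ω, (X.y ω, X.b ω)))
      (fun _ _ _ _ h => (Prod.ext_iff.mp h).2) V
  have s3 := dep_symm hp n₀ V b₀
  linarith

include hp in
/-- The end is almost independent of the label given the start. -/
theorem W_end (h1 : CH p₀ n₀ b₀ - CH p₀ n₀ (fun ω => (V ω, b₀ ω)) ≤ d) :
    X.h - d ≤ CH X.W (fun w => n₀ w.2) (fun w => (V w.2, (X.x w.1, X.b w.1))) := by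
  have h0 := X.W_nn hp
  have s1 : CH X.W (fun w => n₀ w.2) (fun w => (X.x w.1, X.b w.1)) = X.h := by
    have e1 : CH X.W (fun w => X.y w.1) (fun w => (X.x w.1, X.b w.1)) = X.h :=
      (X.W_fst).CH X.y (fun ω => (X.x ω, X.b ω))
    rw [← e1]
    exact CH_supp h0 (fun w hw => ((X.W_eq hp hw).1).symm) (fun _ _ => rfl)
  have s2 := dep_symm h0 (fun w => n₀ w.2) (fun w => V w.2) (fun w => (X.x w.1, X.b w.1))
  have s3 : CH X.W (fun w => V w.2) (fun w => (X.x w.1, X.b w.1)) ≤ CH p₀ V b₀ := by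
    have a1 : CH X.W (fun w => V w.2) (fun w => (X.x w.1, X.b w.1)) ≤
        CH X.W (fun w => V w.2) (fun w => X.b w.1) :=
      CH_mono_cond h0 (fun _ _ _ _ h => (Prod.ext_iff.mp h).2)
    have a2 : CH X.W (fun w => V w.2) (fun w => X.b w.1) = CH p₀ V b₀ := by
      rw [← (X.W_snd hp).CH V b₀]
      exact CH_supp h0 (fun _ _ => rfl) (fun w hw => (X.W_eq hp hw).2)
    linarith
  have s4 : CH X.W (fun w => V w.2) (fun w => (n₀ w.2, (X.x w.1, X.b w.1))) =
      CH p₀ V (fun ω => (n₀ ω, b₀ ω)) := by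
    rw [← CH_snd_pair (T := G × B) X.nn hp X.ly (X := fun ω => (X.x ω, (X.y ω, X.b ω)))
      (fun _ _ _ _ h => (Prod.ext_iff.mp h).2) V (Y' := fun ω => (n₀ ω, b₀ ω))
      (fun _ _ _ _ h => h)]
    refine CH_congr h0 ?_ ?_ ?_ ?_
    · intro w w' _ _ h
      exact (Prod.ext_iff.mp h).1
    · intro w w' _ _ h
      exact (Prod.ext_iff.mp h).1
    · intro w w' hw hw' h
      simp only [Prod.mk.injEq] at h ⊢
      have e := X.W_eq hp hw
      have e' := X.W_eq hp hw'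
      rw [e.1, e'.1, ← e.2, ← e'.2]
      tauto
    · intro w w' hw hw' h
      simp only [Prod.mk.injEq] at h ⊢
      tauto
  have s5 := dep_symm hp n₀ V b₀
  linarith

include hp in
/-- The entropy of the middle point. -/
theorem W_mid {g : A → G} (h2 : CH p₀ (fun ω => n₀ ω + g (V ω)) b₀ -
      CH p₀ (fun ω => n₀ ω + g (V ω)) (fun ω => (V ω, b₀ ω)) ≤ d) :
    CH X.W (fun w => n₀ w.2 + g (V w.2)) (fun w => (X.x w.1, X.b w.1)) ≤
      (comp X (step hp V g)).h + d := by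
  obtain ⟨Z, hZ⟩ : ∃ Z : Ω₀ → G × B, Z = fun ω => (n₀ ω + g (V ω), b₀ ω) := ⟨_, rfl⟩
  obtain ⟨pE, hpE⟩ : ∃ pE : Ω₀ × Ω₀ → ℝ, pE = glue p₀ p₀ Z Z := ⟨_, rfl⟩
  obtain ⟨Q, hQ⟩ : ∃ Q : X.Ω × (Ω₀ × Ω₀) → ℝ,
    Q = glue X.p pE (fun ω => (X.y ω, X.b ω)) (fun ω => (n₀ ω.1, b₀ ω.1)) := ⟨_, rfl⟩
  have hEn : ∀ ω, 0 ≤ pE ω := by rw [hpE]; exact glue_nonneg hp hp
  have hlaw : ∀ z, law X.p (fun ω => (X.y ω, X.b ω)) z =
      law pE (fun ω => (n₀ ω.1, b₀ ω.1)) z := by
    rw [hpE, hZ]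
    exact law_yx X (step hp V g)
  have h0 : ∀ w, 0 ≤ Q w := by rw [hQ]; exact glue_nonneg X.nn hEn
  have hEf : Push pE p₀ Prod.fst := by rw [hpE]; exact push_fst hp (fun _ => rfl)
  have hEs : Push pE p₀ Prod.snd := by rw [hpE]; exact push_snd hp (fun _ => rfl)
  have hpush : Push Q X.W (fun w => (w.1, w.2.1)) := by
    rw [hQ]
    exact push_right (Z₂ := fun ω => (n₀ ω, b₀ ω)) X.nn hEf X.ly
  have hQe : ∀ w, 0 < Q w → (X.y w.1 = n₀ w.2.1 ∧ X.b w.1 = b₀ w.2.1) ∧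
      (n₀ w.2.1 + g (V w.2.1) = n₀ w.2.2 + g (V w.2.2) ∧ b₀ w.2.1 = b₀ w.2.2) := by
    intro w hw
    rw [hQ] at hw
    have a1 := (glue_pos_iff X.nn hEn w).mp hw
    have a4 := a1.2.1
    rw [hpE] at a4
    have a2 := glue_eq a4 hp hp
    have a3 := a1.2.2
    simp only [hZ, Prod.mk.injEq] at a2 a3
    exact ⟨a3, a2⟩
  have s1 : CH X.W (fun w => n₀ w.2 + g (V w.2)) (fun w => (X.x w.1, X.b w.1)) =
      CH Q (fun w => n₀ w.2.1 + g (V w.2.1)) (fun w => (X.x w.1, X.b w.1)) :=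
    (hpush.CH (fun w => n₀ w.2 + g (V w.2)) (fun w => (X.x w.1, X.b w.1))).symm
  have s2' : (comp X (step hp V g)).h = CH Q (fun w => n₀ w.2.2) (fun w => (X.x w.1, X.b w.1)) := by
    rw [hQ, hpE, hZ]
    rfl
  have s2 : CH Q (fun w => n₀ w.2.2) (fun w => (V w.2.2, (X.x w.1, X.b w.1))) ≤
      (comp X (step hp V g)).h := by
    rw [s2']
    exact CH_mono_cond h0 (fun _ _ _ _ h => (Prod.ext_iff.mp h).2)
  have s3 : CH Q (fun w => n₀ w.2.2) (fun w => (V w.2.2, (X.x w.1, X.b w.1))) =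
      CH Q (fun w => n₀ w.2.1 + g (V w.2.1)) (fun w => (V w.2.2, (X.x w.1, X.b w.1))) := by
    refine CH_congr h0 ?_ ?_ (fun _ _ _ _ h => h) (fun _ _ _ _ h => h)
    · intro w w' hw hw' h
      simp only [Prod.mk.injEq] at h
      show n₀ w.2.1 + g (V w.2.1) = n₀ w'.2.1 + g (V w'.2.1)
      rw [(hQe w hw).2.1, (hQe w' hw').2.1, h.1, h.2.1]
    · intro w w' hw hw' h
      simp only [Prod.mk.injEq] at h
      have h1 := h.1
      rw [(hQe w hw).2.1, (hQe w' hw').2.1, h.2.1] at h1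
      exact add_left_injective _ h1
  have s4 := dep_symm h0 (fun w => n₀ w.2.1 + g (V w.2.1)) (fun w => V w.2.2)
    (fun w => (X.x w.1, X.b w.1))
  have s5 : CH Q (fun w => V w.2.2) (fun w => (X.x w.1, X.b w.1)) ≤ CH p₀ V b₀ := by
    have a1 : CH Q (fun w => V w.2.2) (fun w => (X.x w.1, X.b w.1)) ≤
        CH Q (fun w => V w.2.2) (fun w => X.b w.1) :=
      CH_mono_cond h0 (fun _ _ _ _ h => (Prod.ext_iff.mp h).2)
    have a2 : CH Q (fun w => V w.2.2) (fun w => X.b w.1) = CH p₀ V b₀ := by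
      have hh : Push Q p₀ (fun w => w.2.2) := by
        rw [hQ]
        exact hEs.comp (push_snd hEn hlaw)
      rw [← hh.CH V b₀]
      exact CH_supp h0 (fun _ _ => rfl)
        (fun w hw => ((hQe w hw).1.2).trans (hQe w hw).2.2)
    linarith
  have s6 : CH p₀ V b₀ - d ≤
      CH Q (fun w => V w.2.2) (fun w => (n₀ w.2.1 + g (V w.2.1), (X.x w.1, X.b w.1))) := by
    have a1 : CH Q (fun w => V w.2.2) (fun w => ((X.x w.1, (X.y w.1, X.b w.1)),
        (V w.2.1, (n₀ w.2.1, b₀ w.2.1)))) ≤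
        CH Q (fun w => V w.2.2) (fun w => (n₀ w.2.1 + g (V w.2.1), (X.x w.1, X.b w.1))) := by
      refine CH_mono_cond h0 ?_
      intro w w' _ _ h
      simp only [Prod.mk.injEq] at h ⊢
      obtain ⟨⟨a, b, c⟩, e, f, i⟩ := h
      rw [e, f]
      exact ⟨rfl, a, c⟩
    have a2 : CH Q (fun w => V w.2.2) (fun w => ((X.x w.1, (X.y w.1, X.b w.1)),
        (V w.2.1, (n₀ w.2.1, b₀ w.2.1)))) =
        CH pE (fun ω => V ω.2) (fun ω => (V ω.1, (n₀ ω.1, b₀ ω.1))) := by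
      rw [hQ]
      exact CH_snd_pair (T := G × B) X.nn hEn hlaw (X := fun ω => (X.x ω, (X.y ω, X.b ω)))
        (fun _ _ _ _ h => (Prod.ext_iff.mp h).2) (fun ω => V ω.2)
        (Y' := fun ω => (V ω.1, (n₀ ω.1, b₀ ω.1))) (fun _ _ _ _ h => (Prod.ext_iff.mp h).2)
    have a3 : CH pE (fun ω => V ω.2) (fun ω => (V ω.1, (n₀ ω.1, b₀ ω.1))) =
        CH p₀ V (fun ω => (n₀ ω + g (V ω), b₀ ω)) := by
      have := CH_snd_fst (T := G × B) (Z₁ := Z) (Z₂ := Z) hp hp (fun _ => rfl)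
        (X := fun ω => (V ω, (n₀ ω, b₀ ω)))
        (by
          intro w w' _ _ h
          simp only [hZ, Prod.mk.injEq] at h ⊢
          obtain ⟨a, b, c⟩ := h
          rw [a, b]; exact ⟨rfl, c⟩) V
      rw [hpE]
      rw [hZ] at this ⊢
      exact this
    have a4 := dep_symm hp (fun ω => n₀ ω + g (V ω)) V b₀
    linarith
  linarith

/-- The start, the label and the context. -/
def cW (w : X.Ω × Ω₀) : G × (A × B) := (X.x w.1, (V w.2, X.b w.1))

include hp in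
/-- **The side information.** -/
theorem lam {η : ℝ} (h1 : CH p₀ n₀ b₀ - CH p₀ n₀ (fun ω => (V ω, b₀ ω)) ≤ d) (L : List (A → G))
    (h2 : ∀ g ∈ L, CH p₀ (fun ω => n₀ ω + g (V ω)) b₀ -
      CH p₀ (fun ω => n₀ ω + g (V ω)) (fun ω => (V ω, b₀ ω)) ≤ d)
    (h3 : ∀ g ∈ L, (comp X (step hp V g)).h ≤ X.h + η) :
    ∃ (Λ : Type) (_ : Fintype Λ) (q : Λ → ℝ) (c : Λ → G × (A × B)) (x : Λ → List G),
      (∀ l, 0 ≤ q l) ∧ (∀ z, law q c z = law X.W (X.cW V) z) ∧
      CH q (fun l => (c l).2.1) (fun l => ((c l).1, (c l).2.2)) -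
        CH q (fun l => (c l).2.1) (fun l => (x l, ((c l).1, (c l).2.2))) ≤
          L.length * (η + 2 * d) ∧
      ∀ g ∈ L, ∃ ρ : Λ → X.Ω × Ω₀, Push q X.W ρ ∧ (∀ l, 0 < q l → X.cW V (ρ l) = c l) ∧
        Det q x (fun l => n₀ (ρ l).2 + g (V (ρ l).2)) := by
  induction L with
  | nil =>
    refine ⟨X.Ω × Ω₀, inferInstance, X.W, X.cW V, fun _ => [], X.W_nn hp, fun _ => rfl, ?_, ?_⟩
    · have : CH X.W (fun l => (X.cW V l).2.1) (fun l => (([] : List G),
          ((X.cW V l).1, (X.cW V l).2.2))) =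
          CH X.W (fun l => (X.cW V l).2.1) (fun l => ((X.cW V l).1, (X.cW V l).2.2)) := by
        refine CH_congr (X.W_nn hp) ?_ ?_ ?_ ?_
        · intro w w' _ _ h; exact (Prod.ext_iff.mp h).1
        · intro w w' _ _ h; exact (Prod.ext_iff.mp h).1
        · intro w w' _ _ h; exact (Prod.ext_iff.mp h).2
        · intro w w' _ _ h; exact Prod.ext rfl h
      rw [this]
      simp
    · intro g hg; simp at hg
  | cons g L ih =>
    obtain ⟨Λ, iΛ, q, c, x, hq, hc, hI, hρ⟩ :=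
      ih (fun g hg => h2 g (List.mem_cons_of_mem _ hg)) (fun g hg => h3 g (List.mem_cons_of_mem _ hg))
    have hW := X.W_nn hp
    obtain ⟨q', hq'⟩ : ∃ q' : Λ × (X.Ω × Ω₀) → ℝ, q' = glue q X.W c (X.cW V) := ⟨_, rfl⟩
    have h0 : ∀ w, 0 ≤ q' w := by rw [hq']; exact glue_nonneg hq hW
    have hgp : ∀ w, 0 < q' w → 0 < q w.1 ∧ 0 < X.W w.2 ∧ c w.1 = X.cW V w.2 := fun w hw => by
      rw [hq'] at hw
      exact (glue_pos_iff hq hW w).mp hw
    have hge : ∀ w, 0 < q' w → c w.1 = X.cW V w.2 := fun w hw => (hgp w hw).2.2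
    have hf : Push q' q Prod.fst := by rw [hq']; exact push_fst hq hc
    have hs : Push q' X.W Prod.snd := by rw [hq']; exact push_snd hW hc
    refine ⟨Λ × (X.Ω × Ω₀), inferInstance, q', fun w => c w.1,
      fun w => (n₀ w.2.2 + g (V w.2.2)) :: x w.1, h0, ?_, ?_, ?_⟩
    · intro z
      rw [← hc z]
      exact hf.law c z
    · -- the price of one more point
      have a1 : CH q' (fun w => (c w.1).2.1) (fun w => ((c w.1).1, (c w.1).2.2)) =
          CH q (fun l => (c l).2.1) (fun l => ((c l).1, (c l).2.2)) :=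
        hf.CH (fun l => (c l).2.1) (fun l => ((c l).1, (c l).2.2))
      have a2 : CH q' (fun w => (c w.1).2.1)
          (fun w => ((n₀ w.2.2 + g (V w.2.2)) :: x w.1, ((c w.1).1, (c w.1).2.2))) =
          CH q' (fun w => (c w.1).2.1)
            (fun w => (n₀ w.2.2 + g (V w.2.2), (x w.1, ((c w.1).1, (c w.1).2.2)))) := by
        refine CH_congr h0 ?_ ?_ ?_ ?_
        · intro w w' _ _ h; exact (Prod.ext_iff.mp h).1
        · intro w w' _ _ h; exact (Prod.ext_iff.mp h).1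
        · intro w w' _ _ h
          simp only [Prod.mk.injEq, List.cons.injEq] at h ⊢
          tauto
        · intro w w' _ _ h
          simp only [Prod.mk.injEq, List.cons.injEq] at h ⊢
          tauto
      -- entropies
      have b1 : H q' (fun w => ((c w.1).2.1,
          (n₀ w.2.2 + g (V w.2.2), (x w.1, ((c w.1).1, (c w.1).2.2))))) =
          H q (fun l => (x l, c l)) + H X.W (fun w => (n₀ w.2 + g (V w.2), X.cW V w)) -
            H q c := by
        rw [← H_glue_pair hq hW hc (X := fun l => (x l, c l))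
          (Y := fun w => (n₀ w.2 + g (V w.2), X.cW V w))
          (fun _ _ _ _ h => (Prod.ext_iff.mp h).2) (fun _ _ _ _ h => (Prod.ext_iff.mp h).2), ← hq']
        refine H_congr h0 ?_ ?_
        · intro w w' _ _ h
          simp only [Prod.mk.injEq] at h ⊢
          obtain ⟨⟨u, v⟩, u', v'⟩ := h
          rw [v]
          exact ⟨rfl, u', u, rfl, rfl⟩
        · intro w w' hw hw' h
          simp only [Prod.mk.injEq] at h ⊢
          obtain ⟨u1, u2, u3, u4, u5⟩ := h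
          have : c w.1 = c w'.1 := Prod.ext u4 (Prod.ext u1 u5)
          rw [← hge w hw, ← hge w' hw']
          exact ⟨⟨u3, this⟩, u2, this⟩
      have b2 := sub3 h0 (fun w => n₀ w.2.2 + g (V w.2.2)) (fun w => x w.1)
        (fun w => ((c w.1).1, (c w.1).2.2))
      have b3 : H q' (fun w => (n₀ w.2.2 + g (V w.2.2), ((c w.1).1, (c w.1).2.2))) =
          H X.W (fun w => (n₀ w.2 + g (V w.2), (X.x w.1, X.b w.1))) := by
        rw [← hs.H (fun w => (n₀ w.2 + g (V w.2), (X.x w.1, X.b w.1)))]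
        refine H_supp h0 (fun w hw => ?_)
        rw [hge w hw]
        rfl
      have b4 : H q' (fun w => (x w.1, ((c w.1).1, (c w.1).2.2))) =
          H q (fun l => (x l, ((c l).1, (c l).2.2))) :=
        hf.H (fun l => (x l, ((c l).1, (c l).2.2)))
      have b5 : H q' (fun w => ((c w.1).1, (c w.1).2.2)) = H q (fun l => ((c l).1, (c l).2.2)) :=
        hf.H (fun l => ((c l).1, (c l).2.2))
      have b6 : H q (fun l => (x l, c l)) =
          H q (fun l => ((c l).2.1, (x l, ((c l).1, (c l).2.2)))) := by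
        refine H_congr hq ?_ ?_
        · intro w w' _ _ h
          simp only [Prod.mk.injEq] at h ⊢
          obtain ⟨u1, u2, u3, u4⟩ := h
          exact ⟨u2, Prod.ext u3 (Prod.ext u1 u4)⟩
        · intro w w' _ _ h
          simp only [Prod.mk.injEq] at h ⊢
          rw [h.1, h.2]
          exact ⟨rfl, rfl, rfl, rfl⟩
      have b7 : H q c = H X.W (X.cW V) := H_law hc
      have b8 : H X.W (fun w => (n₀ w.2 + g (V w.2), X.cW V w)) =
          H X.W (fun w => (n₀ w.2, (V w.2, (X.x w.1, X.b w.1)))) := by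
        refine H_congr hW ?_ ?_
        · intro w w' _ _ h
          simp only [cW, Prod.mk.injEq] at h ⊢
          obtain ⟨u1, u2, u3, u4⟩ := h
          rw [u1, u2, u3, u4]
          exact ⟨rfl, rfl, rfl, rfl⟩
        · intro w w' _ _ h
          simp only [cW, Prod.mk.injEq] at h ⊢
          obtain ⟨u1, u2, u3, u4⟩ := h
          rw [u3] at u1
          exact ⟨add_left_injective _ u1, u3, u2, u4⟩
      have b9 : H X.W (X.cW V) = H X.W (fun w => (V w.2, (X.x w.1, X.b w.1))) := by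
        refine H_congr hW ?_ ?_ <;>
        · intro w w' _ _ h
          simp only [cW, Prod.mk.injEq] at h ⊢
          tauto
      have b10 : H X.W (fun w => (X.x w.1, X.b w.1)) = H q (fun l => ((c l).1, (c l).2.2)) := by
        have e1 : ∀ z, law X.W (fun w => ((X.cW V w).1, (X.cW V w).2.2)) z =
            law q (fun l => ((c l).1, (c l).2.2)) z := by
          intro z
          rw [← hs.law (fun w => ((X.cW V w).1, (X.cW V w).2.2)),
            ← hf.law (fun l => ((c l).1, (c l).2.2))]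
          exact law_supp h0 (fun w hw => by rw [hge w hw]) z
        exact H_law e1
      have c1 := X.W_end hp V h1
      have c2 := X.W_mid hp V (h2 g List.mem_cons_self)
      have c3 := h3 g List.mem_cons_self
      rw [a1, a2, List.length_cons]
      push_cast
      unfold CH at c1 c2 hI ⊢
      linarith
    · intro g' hg'
      rcases List.mem_cons.mp hg' with rfl | hg'
      · refine ⟨Prod.snd, hs, fun w hw => (hge w hw).symm, ?_⟩
        intro w w' _ _ h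
        simp only [List.cons.injEq] at h
        exact h.1
      · obtain ⟨ρ, r1, r2, r3⟩ := hρ g' hg'
        refine ⟨fun w => ρ w.1, r1.comp hf, fun w hw => ?_, ?_⟩
        · exact r2 w.1 (hgp w hw).1
        · intro w w' hw hw' h
          simp only [List.cons.injEq] at h
          exact r3 w.1 w'.1 (hgp w hw).1 (hgp w' hw').1 h.2

end W

end Blk

end Pool.CH30
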